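import Pool.Agent.H54.KVA.Defs2
import Pool.Agent.H56.KAF.Defs

/-!
# The slope law in one macroscopic context: definitions (pure part)

`RDat`: samples `Om` (a line `L` and a time `T` on it), the digits `V` of the line, the normal
position `N` of the sample in units `2 ^ (-X)`; `ZR t₁ t₀ v` is the difference of the normal
positions at the times `t₀` and `t₁` for a line with digits `v`. This is the setting of the
lemma on heavy rows. The type `Tau` is arbitrary: `T` may contain more than the time.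

`LDat`: lemma L1. The line has a tangential position `y` in dimension `k` and `n` unknown numbers
`c a`; the normal position at the time `t` is
`m₀ + ∑ a, c a * t ^ (a + 1) - s t - ∑ i, co t i * g i y`, where `g i` are fixed functions
(monomials) and `co t i`, `s t` are arbitrary.

`NDat`: the prediction lemma N1. The line has unknown numbers `v j`, the normal position at the
time `t` is `v₀ + ∑ j, v j t ^ (j + 1)`.
-/

set_option autoImplicit false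

namespace Pool.M5

open Finset Real
open Pool.Agent.H49.Ent Pool.Agent.H32.Dense Pool.STK Pool.KAF

/-! ### Heavy rows -/

/-- The setting of the lemma on heavy rows. -/
structure RDat where
  Om : Type
  Lam : Type
  Tau : Type
  Nu : Type
  [fin : Fintype Om]
  P : Om → ℝ
  L : Om → Lam
  T : Om → Tau
  V : Lam → Nu
  N : Om → ℤ
  ZR : Tau → Tau → Nu → ℝ
  X : ℕ

attribute [instance] RDat.fin

namespace RDat

variable (d : RDat)

/-- The row `r` of the normal position. -/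
def row (r : ℕ) (ω : d.Om) : ℤ := d.N ω / 2 ^ (d.X - r)

/-- The basic assumptions. -/
structure OK (A : ℕ) : Prop where
  law : IsLaw d.P
  hN : Det d.P (fun ω => (d.L ω, d.T ω)) d.N
  hZ : ∀ ω ω', 0 < d.P ω → 0 < d.P ω' → d.L ω = d.L ω' →
    |((d.N ω' : ℝ) - d.N ω) - 2 ^ d.X * d.ZR (d.T ω) (d.T ω') (d.V (d.L ω))| ≤ 2 ^ A

/-- (H2) the normal position is nearly independent of the digits of the line. -/
def H2 (ι : ℝ) : Prop := Pool.KVA.MI d.P d.N (fun ω => d.V (d.L ω)) d.T ≤ ι * d.X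

/-- (H5) the blocks of rows of the normal position outside `Bd` are not full on any large
event. -/
def H5 (c κ π₀ : ℝ) (Bd : Set ℕ) : Prop :=
  ∀ j : ℕ, j ∉ Bd → (j + 1) * ⌊κ * d.X⌋₊ ≤ d.X → ∀ E : Set d.Om, π₀ ≤ Pr d.P E →
    CH (cond d.P (fun ω => ω ∈ E) True) (d.row ((j + 1) * ⌊κ * d.X⌋₊))
      (fun ω => (d.row (j * ⌊κ * d.X⌋₊) ω, d.T ω)) ≤ (1 - c) * ⌊κ * d.X⌋₊ * Real.log 2

/-- (J1) For most samples all blocks of rows outside `Bd` contain many heavy rows. -/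
def J1 (J : d.Om → Set ℕ) (h : ℕ) (u π₁ : ℝ) (Bd : Set ℕ) : Prop :=
  Pr d.P {ω | ∃ j : ℕ, j ∉ Bd ∧ (j + 2) * h ≤ d.X ∧
    (Set.ncard {r | r ∈ J ω ∧ j * h ≤ r ∧ r < (j + 1) * h} : ℝ) < u * h} ≤ π₁

/-- (J2) The heavy rows of the base sample are not hit by the forms. `Q` is any law of tuples,
`w₁` the base sample, `w₀` the partner, `x` the times, `x₀` the context, `m` a label (function of
the line and of the context), `G` the cells, `dg` their digits (at most `b` values), `q` the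
level, `W` an event; the level and the event may depend on the cell. -/
def RowOK (J : d.Om → Set ℕ) (k k₁ b : ℕ) (e δ : ℝ) : Prop :=
  ∀ (Ω ξ₀ ξ μ : Type) (γ : ℕ → Type) [Fintype Ω] (Q : Ω → ℝ) (w₁ w₀ : Ω → d.Om) (x₀ : Ω → ξ₀)
    (x : Ω → ξ) (m : Ω → μ) (G : ∀ s, Ω → γ s) (dg : ℕ → Ω → Fin b)
    (q : Ω → ℤ) (W : Set Ω) (a₁ a₂ : ℕ), IsLaw Q →
    (∀ ω, law Q w₁ ω = d.P ω) → (∀ ω, law Q w₀ ω = d.P ω) →
    (∀ v, 0 < Q v → d.L (w₀ v) = d.L (w₁ v)) →
    Det Q x (fun v => (x₀ v, d.T (w₁ v), d.T (w₀ v))) →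
    Pool.KVA.MI Q (fun v => d.L (w₁ v)) x (fun _ => ()) ≤ δ * d.X →
    Det Q (fun v => (x₀ v, d.L (w₁ v))) m →
    CH Q m (fun v => (x₀ v, d.V (d.L (w₁ v)))) ≤ δ * d.X →
    (∀ s, a₁ ≤ s → Det Q (fun v => (x₀ v, m v, d.V (d.L (w₁ v)))) (G s)) →
    (∀ s, a₁ ≤ s → Det Q (fun v => (G s v, dg s v)) (G (s + 1))) →
    (∀ s, a₁ ≤ s → Det Q (G (s + 1)) (fun v => (G s v, dg s v))) →
    (∀ s, a₁ ≤ s → Det Q (fun v => (x v, m v, G s v)) (fun v => (q v, v ∈ W))) →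
    (∀ s v v', a₁ ≤ s → 0 < Q v → 0 < Q v' → v ∈ W → x₀ v = x₀ v' → m v = m v' →
      G s v = G s v' →
      |d.ZR (d.T (w₁ v)) (d.T (w₀ v)) (d.V (d.L (w₁ v))) -
        d.ZR (d.T (w₁ v)) (d.T (w₀ v)) (d.V (d.L (w₁ v')))| ≤
        (2 : ℝ) ^ ((k : ℤ) - (s + q v))) →
    a₂ ≤ d.X →
    ∑ s ∈ Finset.Ico a₁ a₂, Pr (dbl Q (fun v => (x₀ v, m v, G s v))) {z | z.1 ∈ W ∧
      0 ≤ (s : ℤ) + q z.1 ∧ ((s : ℤ) + q z.1).toNat ∈ J (w₁ z.1) ∧
      (2 : ℝ) ^ (-((s : ℤ) + q z.1 + k₁)) ≤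
        |d.ZR (d.T (w₁ z.1)) (d.T (w₀ z.1)) (d.V (d.L (w₁ z.1))) -
          d.ZR (d.T (w₁ z.1)) (d.T (w₀ z.1)) (d.V (d.L (w₁ z.2)))|} ≤ e * d.X

end RDat

/-- ROW: the heavy rows exist. -/
def RROWStmt : Prop :=
  ∀ (A : ℕ) (c : ℝ), 0 < c → ∃ u : ℝ, 0 < u ∧ u ≤ 1 ∧ ∀ (k k₁ b : ℕ) (e : ℝ), 0 < e →
    ∃ δ : ℝ, 0 < δ ∧ ∀ κ π₁ : ℝ, 0 < κ → κ ≤ 1 → 0 < π₁ → ∃ (π₀ : ℝ) (X₀ : ℕ), 0 < π₀ ∧
      ∀ (d : RDat) (Bd : Set ℕ), d.OK A → X₀ ≤ d.X → d.H2 δ → d.H5 c κ π₀ Bd →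
        ∃ J : d.Om → Set ℕ, d.J1 J ⌊κ * d.X⌋₊ u π₁ Bd ∧ d.RowOK J k k₁ b e δ

/-! ### The functions of the tangential position -/

/-- Finitely many functions `g i` with gradients `D i` on the unit cube of dimension `k`. -/
structure Bas (k : ℕ) (I : Type) where
  g : I → (Fin k → ℝ) → ℝ
  D : I → (Fin k → ℝ) → Fin k → ℝ
  C : ℝ
  hC : 1 ≤ C
  hg : ∀ i x, (∀ j, |x j| ≤ 1) → |g i x| ≤ C
  hD : ∀ i x, (∀ j, |x j| ≤ 1) → ∀ j, |D i x j| ≤ C
  tay : ∀ i x x' x₀, (∀ j, |x j| ≤ 1) → (∀ j, |x' j| ≤ 1) → (∀ j, |x₀ j| ≤ 1) → ∀ r : ℝ,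
    (∀ j, |x j - x₀ j| ≤ r) → (∀ j, |x' j - x₀ j| ≤ r) →
    |g i x - g i x' - ∑ j, D i x₀ j * (x j - x' j)| ≤ C * r * ‖x - x'‖

/-- The exponents of the monomials of degree `1, …, K` in `k` variables. -/
def Mon (k K : ℕ) : Finset (Fin k → ℕ) :=
  (Fintype.piFinset fun _ => range (K + 1)).filter fun al => 1 ≤ ∑ j, al j ∧ ∑ j, al j ≤ K

/-- A monomial. -/
def mono {k : ℕ} (al : Fin k → ℕ) (x : Fin k → ℝ) : ℝ := ∏ j, x j ^ al j

/-- The gradient of a monomial. -/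
def dmono {k : ℕ} (al : Fin k → ℕ) (x : Fin k → ℝ) (i : Fin k) : ℝ :=
  al i * x i ^ (al i - 1) * ∏ j ∈ univ.erase i, x j ^ al j

/-- The coefficients of the interpolation polynomial. -/
noncomputable def lag {n : ℕ} (θ f : Fin (n + 1) → ℝ) (a : ℕ) : ℝ :=
  (Lagrange.interpolate univ θ f).coeff a

/-! ### L1 -/

/-- The data of lemma L1. -/
structure LDat (k n : ℕ) (I : Type) where
  Om : Type
  Lam : Type
  Tau : Type
  [fin : Fintype Om]
  P : Om → ℝ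
  L : Om → Lam
  T : Om → Tau
  y : Lam → Fin k → ℤ
  c : Lam → Fin n → ℤ
  N : Om → ℤ
  th : Tau → ℝ
  s : Tau → ℝ
  co : Tau → I → ℝ
  X : ℕ

attribute [instance] LDat.fin

section

variable {k n : ℕ} {I : Type} [Fintype I]

/-- The function with the coefficients `a`. -/
noncomputable def pol (b : Bas k I) (a : I → ℝ) (x : Fin k → ℝ) : ℝ := ∑ i, a i * b.g i x

/-- Its gradient. -/
noncomputable def grd (b : Bas k I) (a : I → ℝ) (x : Fin k → ℝ) : Fin k → ℝ :=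
  fun j => ∑ i, a i * b.D i x j

end

namespace LDat

variable {k n : ℕ} {I : Type} [Fintype I] (b : Bas k I) (d : LDat k n I)

/-- The tangential position. -/
noncomputable def yR (l : d.Lam) : Fin k → ℝ := fun j => d.y l j / 2 ^ d.X

/-- The unknown numbers. -/
noncomputable def cR (l : d.Lam) : Fin n → ℝ := fun a => d.c l a / 2 ^ d.X

/-- The difference of the normal positions at two times. -/
noncomputable def Z (t₁ t₀ : d.Tau) (v : (Fin k → ℤ) × (Fin n → ℤ)) : ℝ :=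
  ∑ a, (d.th t₀ ^ (a.val + 1) - d.th t₁ ^ (a.val + 1)) * (v.2 a / 2 ^ d.X) - (d.s t₀ - d.s t₁) -
    (pol b (d.co t₀) (fun j => v.1 j / 2 ^ d.X) - pol b (d.co t₁) (fun j => v.1 j / 2 ^ d.X))

/-- The rows of L1. -/
noncomputable def toR : RDat where
  Om := d.Om
  Lam := d.Lam
  Tau := d.Tau
  Nu := (Fin k → ℤ) × (Fin n → ℤ)
  P := d.P
  L := d.L
  T := d.T
  V := fun l => (d.y l, d.c l)
  N := d.N
  ZR := d.Z b
  X := d.X

/-- The basic assumptions; `c` bounds the logarithm of the coefficients. -/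
structure OK (A : ℕ) (c : ℝ) : Prop where
  law : IsLaw d.P
  hy : ∀ l j, |d.yR l j| ≤ 1
  hc : ∀ l a, |d.cR l a| ≤ 1
  hN : Det d.P (fun ω => (d.L ω, d.T ω)) d.N
  hth : ∀ t, 0 ≤ d.th t ∧ d.th t < 1
  hco : ∀ t i, |d.co t i| ≤ (2 : ℝ) ^ c
  hZ : ∀ ω ω', 0 < d.P ω → 0 < d.P ω' → d.L ω = d.L ω' →
    |((d.N ω' : ℝ) - d.N ω) - 2 ^ d.X * d.Z b (d.T ω) (d.T ω') (d.y (d.L ω), d.c (d.L ω))| ≤ 2 ^ A

/-- The first `i` digits of the time. -/
noncomputable def Ti (i : ℕ) (ω : d.Om) : ℤ := ⌊(2 : ℝ) ^ i * d.th (d.T ω)⌋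

/-- (H1) `T` is nearly independent of the line, the digits of the time are full, and the first
`j₀` digits have a deficit at most `ε₀`. -/
def H1 (ι : ℝ) (j₀ : ℕ) (ε₀ : ℝ) : Prop :=
  Pool.KVA.MI d.P d.T d.L (fun _ => ()) ≤ ι * d.X ∧
  (1 - ι) * d.X * Real.log 2 ≤ CH d.P (d.Ti d.X) d.L ∧
  j₀ * Real.log 2 - ε₀ ≤ CH d.P (d.Ti j₀) d.L

/-- (H3) the tangential position is full. -/
def H3 (ι : ℝ) : Prop := (k - ι) * d.X * Real.log 2 ≤ H d.P (fun ω => d.y (d.L ω))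

/-- Pairs of samples on one line at the scale `i`. -/
noncomputable def Qp (i : ℕ) : d.Om × d.Om → ℝ := dbl d.P (fun ω => (d.L ω, d.Ti i ω))

open Classical in
/-- The reference: `n + 1` independent samples of one line. -/
noncomputable def Qr (v : Fin (n + 1) → d.Om) : ℝ :=
  if ∀ j, d.L (v j) = d.L (v 0) then (∏ j, d.P (v j)) / law d.P d.L (d.L (v 0)) ^ n else 0

/-- A reference and a pair at the scale `i`, on one line. -/
noncomputable def Q4 (i : ℕ) : (Fin (n + 1) → d.Om) × (d.Om × d.Om) → ℝ :=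
  glue d.Qr (d.Qp i) (fun v => d.L (v 0)) (fun w => d.L w.1)

/-- The difference of the times of a pair. -/
noncomputable def ta (w : d.Om × d.Om) : ℝ := d.th (d.T w.2) - d.th (d.T w.1)

/-- The difference of the powers of the times of a pair. -/
noncomputable def dt (a : Fin n) (w : d.Om × d.Om) : ℝ :=
  d.th (d.T w.2) ^ (a.val + 1) - d.th (d.T w.1) ^ (a.val + 1)

/-- The difference of the coefficients at the times of a pair. -/
noncomputable def sg (w : d.Om × d.Om) : I → ℝ := fun i => d.co (d.T w.2) i - d.co (d.T w.1) i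

/-- The coefficient of `t ^ (a + 1)` in the interpolation of the functions at the times of the
reference. -/
noncomputable def As (v : Fin (n + 1) → d.Om) (a : Fin n) : I → ℝ := fun i =>
  lag (fun j => d.th (d.T (v j))) (fun j => d.co (d.T (v j)) i) (a.val + 1)

/-- The unknown numbers relative to the reference. -/
noncomputable def cs (v : Fin (n + 1) → d.Om) (a : Fin n) : ℝ :=
  d.cR (d.L (v 0)) a - pol b (d.As v a) (d.yR (d.L (v 0)))

/-- The position of the line to `r` digits. -/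
noncomputable def y₀ (r : ℕ) (l : d.Lam) : Fin k → ℝ := fun j => ⌊(2 : ℝ) ^ r * d.yR l j⌋ / 2 ^ r

/-- The coefficients of a pair relative to the reference. -/
noncomputable def rs (u : (Fin (n + 1) → d.Om) × (d.Om × d.Om)) : I → ℝ :=
  fun i => d.sg u.2 i - ∑ a, d.dt a u.2 * d.As u.1 a i

/-- Their gradient at the position of the line to `r` digits. -/
noncomputable def gr (r : ℕ) (u : (Fin (n + 1) → d.Om) × (d.Om × d.Om)) : Fin k → ℝ :=
  grd b (d.rs u) (d.y₀ r (d.L (u.1 0)))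

/-- A label of a reference: it depends on the times and on the line. -/
def Lab (m : (Fin (n + 1) → d.Om) → ℤ) : Prop :=
  ∀ v v', (∀ j, d.T (v j) = d.T (v' j)) → d.L (v 0) = d.L (v' 0) → m v = m v'

/-- The cells, for a reference. -/
noncomputable def GA (m : (Fin (n + 1) → d.Om) → ℤ) (s : ℕ) (v : Fin (n + 1) → d.Om) :
    ((Fin (n + 1) → d.Tau) × ℤ) × (Fin k → ℤ) × (Fin n → ℤ) :=
  ((fun j => d.T (v j), m v), (fun j => ⌊(2 : ℝ) ^ s * d.yR (d.L (v 0)) j⌋),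
    fun a => ⌊(2 : ℝ) ^ ((s : ℤ) + m v) * d.cs b v a⌋)

/-- The times of the reference are separated. -/
def sep (k₀ : ℕ) (v : Fin (n + 1) → d.Om) : Prop :=
  ∀ j j', j ≠ j' → (2 : ℝ) ^ (-(k₀ : ℤ)) ≤ |d.th (d.T (v j)) - d.th (d.T (v j'))|

/-- Number of the scales at which the pairs of the line are far from the reference, in the
mean. -/
noncomputable def fq (r ns : ℕ) (v : Fin (n + 1) → d.Om) (a : ℝ) : ℝ :=
  ∑ i ∈ range ns, Pr (cond (d.Qp i) (fun w => d.L w.1) (d.L (v 0)))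
    {w | a * |d.ta w| < ‖d.gr b r (v, w)‖}

end LDat

/-! ### N1 -/

/-- The data of the prediction lemma. -/
structure NDat (K : ℕ) where
  Om : Type
  Lam : Type
  Tau : Type
  [fin : Fintype Om]
  P : Om → ℝ
  L : Om → Lam
  T : Om → Tau
  v : Lam → Fin K → ℤ
  N : Om → ℤ
  th : Tau → ℝ
  s : Tau → ℝ
  X : ℕ

attribute [instance] NDat.fin

namespace NDat

variable {K : ℕ} (d : NDat K)

/-- The rows of N1: the unknown numbers `v j` are the coefficients of `t ^ (j + 1)`. -/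
noncomputable def toR : RDat where
  Om := d.Om
  Lam := d.Lam
  Tau := d.Tau
  Nu := Fin K → ℤ
  P := d.P
  L := d.L
  T := d.T
  V := d.v
  N := d.N
  ZR := fun t₁ t₀ v => ∑ j, (v j / 2 ^ d.X) * (d.th t₀ ^ (j.val + 1) - d.th t₁ ^ (j.val + 1)) +
    (d.s t₀ - d.s t₁)
  X := d.X

/-- The basic assumptions. -/
structure OK (A : ℕ) : Prop where
  law : IsLaw d.P
  hv : ∀ l j, |(d.v l j : ℝ) / 2 ^ d.X| ≤ 1
  hN : Det d.P (fun ω => (d.L ω, d.T ω)) d.N
  hth : ∀ t, 0 ≤ d.th t ∧ d.th t < 1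
  hZ : ∀ ω ω', 0 < d.P ω → 0 < d.P ω' → d.L ω = d.L ω' →
    |((d.N ω' : ℝ) - d.N ω) - 2 ^ d.X * d.toR.ZR (d.T ω) (d.T ω') (d.v (d.L ω))| ≤ 2 ^ A

/-- The first `i` digits of the time. -/
noncomputable def Ti (i : ℕ) (ω : d.Om) : ℤ := ⌊(2 : ℝ) ^ i * d.th (d.T ω)⌋

/-- (H1) the time is nearly independent of the line and its digits are full; the first `j₀`
digits have a deficit at most `ε₀`. -/
def H1 (ι : ℝ) (j₀ : ℕ) (ε₀ : ℝ) : Prop :=
  Pool.KVA.MI d.P d.T d.L (fun _ => ()) ≤ ι * d.X ∧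
  (1 - ι) * d.X * Real.log 2 ≤ CH d.P (d.Ti d.X) d.L ∧
  j₀ * Real.log 2 - ε₀ ≤ CH d.P (d.Ti j₀) d.L

end NDat

end Pool.M5
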