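import Pool.Agent.H48.M5.Defs

/-!
# The slope law in one macroscopic context: statements

Sizes: `ns = κ₂ X` is the number of time scales, the depths `s` run in `[8 ns, X - 8 ns)`, the
gradients are taken at the position of the line to `8 ns` digits, `m` is the label of the
reference, the coefficients are at most `2 ^ c`. `n` is the number of the unknown numbers.
-/

set_option autoImplicit false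

namespace Pool.M5

open Finset Real
open Pool.Agent.H49.Ent Pool.Agent.H32.Dense Pool.STK Pool.KAF

/-- The monomials as functions with gradients. -/
def TAYStmt : Prop := ∀ k K : ℕ, ∃ b : Bas k (Mon k K),
  (∀ i, b.g i = mono (i : Fin k → ℕ)) ∧ ∀ i, b.D i = dmono (i : Fin k → ℕ)

/-- **Lemma L1.** -/
def L1Stmt : Prop :=
  ∀ (k n K A : ℕ) (b : Bas k (Mon k K)) (c ε : ℝ), (∀ i, b.g i = mono (i : Fin k → ℕ)) →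
    (∀ i, b.D i = dmono (i : Fin k → ℕ)) → 0 < c → 0 < ε →
    ∃ (κ₂ κ π₀ ι ε₀ : ℝ) (j₀ X₀ : ℕ), 0 < κ₂ ∧ 0 < κ ∧ κ ≤ 1 ∧ 0 < π₀ ∧ 0 < ι ∧ 0 < ε₀ ∧
      ∀ d : LDat k n (Mon k K), d.OK b A (ι * d.X) → X₀ ≤ d.X → d.H1 ι j₀ ε₀ →
        (d.toR b).H2 ι → d.H3 ι → (d.toR b).H5 c κ π₀ ∅ →
        Pr (d.Q4 0) {u | ∃ i, (2 : ℝ) ^ (-(κ₂ * d.X)) < |d.rs u i|} ≤ ε

section

variable {k n : ℕ} {I : Type} [Fintype I]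

/-- Sizes. -/
structure Siz (b : Bas k I) (d : LDat k n I) (ns h : ℕ) (m : (Fin (n + 1) → d.Om) → ℤ)
    (c : ℝ) : Prop where
  h1 : 1 ≤ h
  hn : 64 * h ≤ ns
  nX : 64 * ns ≤ d.X
  m1 : ∀ v, -(4 * ns : ℤ) ≤ m v
  m2 : ∀ v, m v ≤ 2 * ns
  mf : d.Lab m
  c0 : 0 ≤ c
  cn : (2 : ℝ) ^ c * (b.C * (Fintype.card I + 1)) ≤ (2 : ℝ) ^ ((ns : ℝ) / 2)

/-- RowA: the forms of the pairs do not hit the heavy rows of their base; cells of a reference.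
The level `q` and the event `W` may depend on all the times, the label and the first `8 ns` digits
of the position. -/
def RowA (b : Bas k I) (d : LDat k n I) (J : d.Om → Set ℕ) (m : (Fin (n + 1) → d.Om) → ℤ)
    (ns k' k₁ : ℕ) (e : ℝ) : Prop :=
  ∀ i < 4 * ns, ∀ (q : (Fin (n + 1) → d.Om) × (d.Om × d.Om) → ℤ)
    (W : Set ((Fin (n + 1) → d.Om) × (d.Om × d.Om))),
    (∀ u u', 0 < d.Q4 i u → 0 < d.Q4 i u' → (∀ j, d.T (u.1 j) = d.T (u'.1 j)) →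
      d.T u.2.1 = d.T u'.2.1 → d.T u.2.2 = d.T u'.2.2 → m u.1 = m u'.1 →
      d.y₀ (8 * ns) (d.L (u.1 0)) = d.y₀ (8 * ns) (d.L (u'.1 0)) →
      q u = q u' ∧ (u ∈ W ↔ u' ∈ W)) →
    (∀ u v s, 0 < d.Q4 i u → 0 < d.Qr v → u ∈ W → 8 * ns ≤ s →
      d.GA b m s v = d.GA b m s u.1 →
      |d.Z b (d.T u.2.1) (d.T u.2.2) (d.y (d.L (u.1 0)), d.c (d.L (u.1 0))) -
        d.Z b (d.T u.2.1) (d.T u.2.2) (d.y (d.L (v 0)), d.c (d.L (v 0)))| ≤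
        (2 : ℝ) ^ ((k' : ℤ) - (s + q u))) →
    ∑ s ∈ Finset.Ico (8 * ns) (d.X - 8 * ns), Ex (d.Q4 i) (Set.indicator
      {u | u ∈ W ∧ 0 ≤ (s : ℤ) + q u ∧ ((s : ℤ) + q u).toNat ∈ J u.2.1}
      (fun u => Pr (cond d.Qr (d.GA b m s) (d.GA b m s u.1))
        {v | (2 : ℝ) ^ (-((s : ℤ) + q u + k₁)) ≤
          |d.Z b (d.T u.2.1) (d.T u.2.2) (d.y (d.L (u.1 0)), d.c (d.L (u.1 0))) -
            d.Z b (d.T u.2.1) (d.T u.2.2) (d.y (d.L (v 0)), d.c (d.L (v 0)))|})) ≤ e * d.X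

/-- Macroscopic time distances. -/
def TA (d : LDat k n I) (ns : ℕ) (ε : ℝ) : Prop :=
  ∀ i i' : ℕ, i + ns / 4 ≤ i' → i' ≤ d.X →
    Pr (d.Qp i) {w | |d.ta w| < (2 : ℝ) ^ (-(i' : ℤ))} ≤ ε

/-- The time distances at most scales. -/
def TB (d : LDat k n I) (ns k'' : ℕ) (ε : ℝ) : Prop :=
  ∀ a b : ℕ, a + ns / 8 ≤ b → b ≤ d.X →
    ∑ i ∈ Finset.Ico a b, Pr (d.Qp i) {w | |d.ta w| < (2 : ℝ) ^ (-((i : ℤ) + k''))} ≤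
      ε * ((b : ℝ) - a)

/-- The time distances at the scale `0`. -/
def TC (d : LDat k n I) (k₀ : ℕ) (ε : ℝ) : Prop :=
  Pr (d.Qp 0) {w | |d.ta w| < (2 : ℝ) ^ (-(k₀ : ℤ))} ≤ ε

/-- The tangential position is spread in the cells, in all directions. -/
def SPR (b : Bas k I) (d : LDat k n I) (m : (Fin (n + 1) → d.Om) → ℤ) (ns a : ℕ) (ε : ℝ) :
    Prop :=
  ∃ M : ℕ → (Fin (n + 1) → d.Om) → ℝ, (∀ s v, 0 ≤ M s v) ∧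
    (∀ s v v', d.GA b m s v = d.GA b m s v' → M s v = M s v') ∧
    (∀ s ∈ Finset.Ico (8 * ns) (d.X - 8 * ns), ∀ v, 0 < d.Qr v → ∀ ξ : Fin k → ℝ, 0 < ‖ξ‖ →
      Pr (cond d.Qr (d.GA b m s) (d.GA b m s v))
        {v' | |∑ j, ξ j * (d.yR (d.L (v' 0)) j - d.yR (d.L (v 0)) j)| <
          ‖ξ‖ * (2 : ℝ) ^ (-((s : ℤ) + a))} ≤ M s v) ∧
    ∑ s ∈ Finset.Ico (8 * ns) (d.X - 8 * ns), Ex d.Qr (M s) ≤ ε * d.X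

/-- No pairs far from the reference, at every scale. -/
def NLC (b : Bas k I) (d : LDat k n I) (m : (Fin (n + 1) → d.Om) → ℤ) (ns a k₀ : ℕ) (ε : ℝ) :
    Prop :=
  ∀ i < 2 * ns, Pr (d.Q4 i) {u | d.sep k₀ u.1 ∧ (2 : ℝ) ^ (-(4 * ns : ℤ)) ≤ |d.ta u.2| ∧
    (n + 1) ^ 2 * (2 : ℝ) ^ ((a : ℤ) + 4 - m u.1) * |d.ta u.2| <
      ‖d.gr b (8 * ns) u‖} ≤ ε

/-- The pairs at all scales agree: their gradients relative to the reference are given by `n`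
covectors `Λ v a` of the reference. -/
def AGR (b : Bas k I) (d : LDat k n I) (m : (Fin (n + 1) → d.Om) → ℤ) (ns k₅ : ℕ)
    (Λ : (Fin (n + 1) → d.Om) → Fin n → Fin k → ℝ) (ε : ℝ) : Prop :=
  ∀ i < ns, Pr (d.Q4 i) {u | (2 : ℝ) ^ (-(m u.1 + k₅)) * |d.ta u.2| <
    ‖fun j => d.gr b (8 * ns) u j - ∑ a, d.dt a u.2 * Λ u.1 a j‖} ≤ ε

/-- TIM: time distances from (H1). -/
def TIMStmt : Prop :=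
  ∀ (k n : ℕ) (I : Type) [Fintype I] (ε : ℝ), 0 < ε → ∃ k'' : ℕ, ∀ κ₂ : ℝ, 0 < κ₂ →
    ∃ (ι : ℝ) (X₀ : ℕ), 0 < ι ∧ ∀ (d : LDat k n I) (b : Bas k I) (A j₀ : ℕ) (c ε₀ : ℝ),
      d.OK b A c → X₀ ≤ d.X → d.H1 ι j₀ ε₀ → TA d ⌊κ₂ * d.X⌋₊ ε ∧ TB d ⌊κ₂ * d.X⌋₊ k'' ε

/-- TIC: time distances at the scale `0`, from the first digits. -/
def TICStmt : Prop :=
  ∀ ε : ℝ, 0 < ε → ∃ (k₀ : ℕ) (ε₀ : ℝ), 0 < ε₀ ∧ ∀ (k n : ℕ) (I : Type) [Fintype I]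
    (d : LDat k n I) (b : Bas k I) (A j₀ : ℕ) (ι c : ℝ), d.OK b A c → k₀ ≤ j₀ →
      d.H1 ι j₀ ε₀ → TC d k₀ ε

/-- QNT: the label. -/
def QNTStmt : Prop :=
  ∀ (k n k₀ : ℕ), ∃ n₀ : ℕ, ∀ (I : Type) [Fintype I] (b : Bas k I) (d : LDat k n I) (A ns : ℕ)
    (c d₁ ε : ℝ), d.OK b A c → n₀ ≤ ns → 0 < d₁ → 0 ≤ c →
    (2 : ℝ) ^ c * (b.C * (Fintype.card I + 1)) ≤ (2 : ℝ) ^ ((ns : ℝ) / 2) → TC d k₀ ε →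
    (∀ i < ns, Pr (d.Qp i) {w | |d.ta w| < (2 : ℝ) ^ (-(2 * ns : ℤ))} ≤ ε) →
    ∃ m : (Fin (n + 1) → d.Om) → ℤ, (∀ v, -(4 * ns : ℤ) ≤ m v ∧ m v ≤ 2 * ns) ∧ d.Lab m ∧
      Pr d.Qr {v | d₁ * ns < d.fq b (8 * ns) ns v ((2 : ℝ) ^ (1 - m v))} ≤
        2 * (n + 1) ^ 2 * ε / d₁ ∧
      ∀ v, 0 < d.Qr v → m v < 2 * ns → d₁ * ns < d.fq b (8 * ns) ns v ((2 : ℝ) ^ (-m v))

/-- RWA: RowA from RowOK. -/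
def RWAStmt : Prop :=
  ∀ (k n : ℕ) (I : Type) [Fintype I] (b : Bas k I) (d : LDat k n I) (J : d.Om → Set ℕ)
    (m : (Fin (n + 1) → d.Om) → ℤ) (A j₀ ns k' k₁ : ℕ) (e δ ι ε₀ c : ℝ), d.OK b A c →
    d.H1 ι j₀ ε₀ → (n + 3) * ι ≤ δ → d.Lab m → H d.Qr m ≤ δ * d.X →
    (d.toR b).RowOK J k' k₁ (2 ^ (k + n)) e δ → RowA b d J m ns k' k₁ e

/-- SPRA: (A1)-(A3), the telescope. -/
def SPRAStmt : Prop :=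
  ∀ (k n : ℕ) (u ε₄ : ℝ), 0 < u → u ≤ 1 → 0 < ε₄ → ∃ ε₇ : ℝ, 0 < ε₇ ∧ ∀ k₀ : ℕ,
    ∃ (a : ℕ) (κ₂ ε₈ e₀ : ℝ), 1 ≤ a ∧ 0 < κ₂ ∧ 0 < ε₈ ∧ 0 < e₀ ∧ ∀ k'' A : ℕ, ∃ k₁₀ n₀ : ℕ,
      ∀ (I : Type) [Fintype I] (b : Bas k I) (d : LDat k n I) (J : d.Om → Set ℕ)
      (m : (Fin (n + 1) → d.Om) → ℤ) (ns h k' k₁ j₀ : ℕ) (e c ε₀ : ℝ), d.OK b A c →
      Siz b d ns h m c → n₀ ≤ ns → (ns : ℝ) ≤ κ₂ * d.X → k + 2 * n + 6 ≤ k' → k₁₀ ≤ k₁ →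
      k₁ ≤ ns → e ≤ e₀ → RowA b d J m ns k' k₁ e → (d.toR b).J1 J h u ε₈ ∅ →
      Pr d.Qr {v | u / 32 * ns < d.fq b (8 * ns) ns v ((2 : ℝ) ^ (1 - m v))} ≤ ε₈ →
      TA d ns ε₈ → TB d ns k'' ε₈ → TC d k₀ ε₇ → d.H1 ε₈ j₀ ε₀ → d.H3 ε₈ → SPR b d m ns a ε₄

/-- NLC: (A4). -/
def NLCStmt : Prop :=
  ∀ k n k₀ : ℕ, ∃ n₀ : ℕ, ∀ (I : Type) [Fintype I] (b : Bas k I) (d : LDat k n I)
    (J : d.Om → Set ℕ) (m : (Fin (n + 1) → d.Om) → ℤ) (A ns h k' k₁ a : ℕ)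
    (e u π₁ ε₄ c : ℝ), d.OK b A c → Siz b d ns h m c → n₀ ≤ ns → a ≤ ns → 0 < u → k + 2 * n + 6 ≤ k' → a + 4 ≤ k₁ →
    RowA b d J m ns k' k₁ e → (d.toR b).J1 J h u π₁ ∅ → SPR b d m ns a ε₄ →
    NLC b d m ns a k₀ (π₁ + 4 / u * (e + ε₄))

/-- ALS: (A5), (A6). -/
def ALSStmt : Prop :=
  ∀ (k n : ℕ) (u ε₉ : ℝ), 0 < u → u ≤ 1 → 0 < ε₉ → ∃ ε₈ : ℝ, 0 < ε₈ ∧
    ∀ k₀ a k'' k₅ A : ℕ, ∃ (k₁₀ n₀ : ℕ) (e₀ : ℝ), 0 < e₀ ∧ ∀ (I : Type) [Fintype I]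
      (b : Bas k I) (d : LDat k n I) (J : d.Om → Set ℕ) (m : (Fin (n + 1) → d.Om) → ℤ)
      (ns h k' k₁ : ℕ) (e c : ℝ), d.OK b A c → Siz b d ns h m c → n₀ ≤ ns →
      a + k + 2 * n + 10 ≤ k' →
      k₁₀ ≤ k₁ → k₁ ≤ ns → e ≤ e₀ → RowA b d J m ns k' k₁ e → (d.toR b).J1 J h u ε₈ ∅ →
      SPR b d m ns a ε₈ → NLC b d m ns a k₀ ε₈ → TA d ns ε₈ → TB d ns k'' ε₈ → TC d k₀ ε₈ →
      ∃ Λ : (Fin (n + 1) → d.Om) → Fin n → Fin k → ℝ, AGR b d m ns k₅ Λ ε₉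

/-- LAM: (A7), the label is maximal. -/
def LAMStmt : Prop :=
  ∀ (n : ℕ) (u ε₁₀ : ℝ), 0 < u → 0 < ε₁₀ → ∃ ε₉ : ℝ, 0 < ε₉ ∧ ∀ k₀ : ℕ, ∃ k₅ : ℕ,
    ∀ (k : ℕ) (I : Type) [Fintype I] (b : Bas k I) (d : LDat k n I) (A ns : ℕ)
    (m : (Fin (n + 1) → d.Om) → ℤ) (Λ : (Fin (n + 1) → d.Om) → Fin n → Fin k → ℝ) (c : ℝ),
    d.OK b A c → 1 ≤ ns → AGR b d m ns k₅ Λ ε₉ → TC d k₀ ε₉ →
    (∀ i < ns, Pr (d.Qp i) {w | d.ta w = 0} ≤ ε₉) →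
    (∀ v, 0 < d.Qr v → m v < 2 * ns →
      u / 32 * ns < d.fq b (8 * ns) ns v ((2 : ℝ) ^ (-m v))) →
    Pr d.Qr {v | m v < 2 * ns} ≤ ε₁₀

/-- REM: (A9), a polynomial whose gradient is small at a nearly full set is small. `Q` is any law
of tuples with a position `y` (integers in units `2 ^ (-X)`), coefficients `a` which are functions
of the label `x`. -/
def REMStmt : Prop :=
  ∀ (k K : ℕ), ∃ C : ℝ, 0 < C ∧ ∀ ε : ℝ, 0 < ε → ∃ X₀ : ℕ, ∀ (Ω ξ : Type) [Fintype Ω]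
    (Q : Ω → ℝ) (X r : ℕ) (y : Ω → Fin k → ℤ) (x : Ω → ξ) (a : ξ → Mon k K → ℝ) (ι M : ℝ),
    IsLaw Q → X₀ ≤ X → (∀ ω j, |(y ω j : ℝ)| ≤ 2 ^ X) → 0 ≤ ι → 1 ≤ ι * X →
    (k - ι) * X * Real.log 2 ≤ CH Q y x → (∀ z i, |a z i| ≤ (2 : ℝ) ^ (ι * X)) → 0 ≤ M →
    M ≤ (r : ℝ) →
    Pr Q {ω | (2 : ℝ) ^ (-M) < ‖fun j => ∑ i : Mon k K, a (x ω) i *
      dmono (i : Fin k → ℕ) (fun j => ⌊(2 : ℝ) ^ r * (y ω j / 2 ^ X)⌋ / 2 ^ r) j‖} ≤ ε →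
    Pr Q {ω | ∃ i : Mon k K, (2 : ℝ) ^ (C * Real.sqrt ι * X - M) < |a (x ω) i|} ≤
      2 * ε + C * Real.sqrt ι

end

/-- **Lemma N1.** -/
def N1Stmt : Prop :=
  ∀ (K A : ℕ) (c ε : ℝ), 0 < c → 0 < ε → ∃ (κ π₀ ι ε₀ : ℝ) (j₀ X₀ : ℕ), 0 < κ ∧ κ ≤ 1 ∧
    0 < π₀ ∧ 0 < ι ∧ 0 < ε₀ ∧ ∀ d : NDat K, d.OK A → X₀ ≤ d.X → d.H1 ι j₀ ε₀ → d.toR.H2 ι →
      d.toR.H5 c κ π₀ ∅ → H d.P (fun ω => d.v (d.L ω)) ≤ ε * d.X * Real.log 2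

end Pool.M5
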