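import Pool.Agent.H48.M5.Defs

/-!
# Coefficients of interpolation polynomials with separated nodes
-/

set_option autoImplicit false

namespace Pool.M5.L48

open Finset Real Polynomial

theorem coeff_factor_le {p : Polynomial ℝ} {B x y K : ℝ} (hB : 0 ≤ B) (hp : ∀ a, |p.coeff a| ≤ B)
    (hy : |y| ≤ 1) (hK : |(x - y)⁻¹| ≤ K) (a : ℕ) :
    |(Lagrange.basisDivisor x y * p).coeff a| ≤ 2 * K * B := by
  have hK0 : 0 ≤ K := le_trans (abs_nonneg _) hK
  have e : (Lagrange.basisDivisor x y * p).coeff a = (x - y)⁻¹ * ((X * p).coeff a - y * p.coeff a) := by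
    unfold Lagrange.basisDivisor
    rw [mul_assoc, coeff_C_mul, sub_mul, coeff_sub, coeff_C_mul]
  rw [e, abs_mul]
  have h1 : |(X * p).coeff a| ≤ B := by
    cases a with
    | zero => simpa using hB
    | succ a => rw [coeff_X_mul]; exact hp a
  have h2 : |y * p.coeff a| ≤ B := by
    rw [abs_mul]
    calc |y| * |p.coeff a| ≤ 1 * B := mul_le_mul hy (hp a) (abs_nonneg _) zero_le_one
      _ = B := one_mul _
  have h3 : |(X * p).coeff a - y * p.coeff a| ≤ 2 * B := by
    have := abs_sub ((X * p).coeff a) (y * p.coeff a)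
    linarith
  calc |(x - y)⁻¹| * |(X * p).coeff a - y * p.coeff a| ≤ K * (2 * B) :=
        mul_le_mul hK h3 (abs_nonneg _) hK0
    _ = 2 * K * B := by ring

theorem coeff_basis_le {ι : Type} [DecidableEq ι] (s : Finset ι) (v : ι → ℝ) {i : ι}
    {K : ℝ} (h1 : ∀ j ∈ s, |v j| ≤ 1) (hK : ∀ j ∈ s, |(v i - v j)⁻¹| ≤ K) (hK0 : 0 ≤ K) (a : ℕ) :
    |(∏ j ∈ s, Lagrange.basisDivisor (v i) (v j)).coeff a| ≤ (2 * K) ^ s.card := by
  induction s using Finset.induction_on generalizing a with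
  | empty =>
    simp only [Finset.prod_empty, Finset.card_empty, pow_zero]
    rw [coeff_one]
    split_ifs <;> simp
  | insert j s hj ih =>
    rw [Finset.prod_insert hj, Finset.card_insert_of_notMem hj, pow_succ, mul_comm ((2 * K) ^ _)]
    exact coeff_factor_le (by positivity)
      (fun a => ih (fun l hl => h1 l (Finset.mem_insert_of_mem hl))
        (fun l hl => hK l (Finset.mem_insert_of_mem hl)) a)
      (h1 j (Finset.mem_insert_self _ _)) (hK j (Finset.mem_insert_self _ _)) a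

/-- The coefficients of the interpolation polynomial are bounded if the nodes are separated. -/
theorem lag_le {n : ℕ} (θ f : Fin (n + 1) → ℝ) {k₀ : ℕ} {F : ℝ} (h1 : ∀ j, |θ j| ≤ 1)
    (hs : ∀ j j', j ≠ j' → (2 : ℝ) ^ (-(k₀ : ℤ)) ≤ |θ j - θ j'|) (hf : ∀ j, |f j| ≤ F) (a : ℕ) :
    |lag θ f a| ≤ (n + 1) * 2 ^ ((k₀ + 1) * n) * F := by
  unfold lag
  rw [Lagrange.interpolate_apply, finsetSum_coeff]
  have hF : 0 ≤ F := le_trans (abs_nonneg _) (hf 0)
  have hj : ∀ j : Fin (n + 1), |(C (f j) * Lagrange.basis univ θ j).coeff a| ≤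
      2 ^ ((k₀ + 1) * n) * F := by
    intro j
    rw [coeff_C_mul, abs_mul, mul_comm (2 ^ _)]
    refine mul_le_mul (hf j) ?_ (abs_nonneg _) hF
    have h2 := coeff_basis_le (univ.erase j) θ (i := j) (K := 2 ^ k₀) (fun i _ => h1 i)
      (fun i hi => ?_) (by positivity) a
    · unfold Lagrange.basis
      refine h2.trans (le_of_eq ?_)
      rw [Finset.card_erase_of_mem (Finset.mem_univ _), Finset.card_univ, Fintype.card_fin,
        Nat.add_sub_cancel, ← pow_succ', ← pow_mul]
    · have h3 := hs j i (Finset.ne_of_mem_erase hi).symm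
      have h4 : (0 : ℝ) < 2 ^ (-(k₀ : ℤ)) := by positivity
      rw [abs_inv]
      calc |θ j - θ i|⁻¹ ≤ ((2 : ℝ) ^ (-(k₀ : ℤ)))⁻¹ := inv_anti₀ h4 h3
        _ = 2 ^ k₀ := by rw [zpow_neg, inv_inv, zpow_natCast]
  calc |∑ j, (C (f j) * Lagrange.basis univ θ j).coeff a|
      ≤ ∑ j, |(C (f j) * Lagrange.basis univ θ j).coeff a| := Finset.abs_sum_le_sum_abs _ _
    _ ≤ ∑ _j : Fin (n + 1), 2 ^ ((k₀ + 1) * n) * F := Finset.sum_le_sum fun j _ => hj j
    _ = (n + 1) * 2 ^ ((k₀ + 1) * n) * F := by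
      rw [Finset.sum_const, Finset.card_univ, Fintype.card_fin, nsmul_eq_mul]
      push_cast; ring

/-- The nodes are distinct. -/
theorem sep_injective {n : ℕ} {θ : Fin (n + 1) → ℝ} {k₀ : ℕ}
    (hs : ∀ j j', j ≠ j' → (2 : ℝ) ^ (-(k₀ : ℤ)) ≤ |θ j - θ j'|) : Function.Injective θ := by
  intro j j' h
  by_contra hne
  have h1 := hs j j' hne
  rw [h, sub_self, abs_zero] at h1
  exact absurd h1 (not_le.2 (by positivity))

/-- `lag` is linear. -/
theorem lag_add {n : ℕ} (θ f g : Fin (n + 1) → ℝ) (a : ℕ) :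
    lag θ (fun j => f j + g j) a = lag θ f a + lag θ g a := by
  unfold lag
  have : (fun j => f j + g j) = f + g := rfl
  rw [this, map_add, coeff_add]

theorem lag_smul {n : ℕ} (θ f : Fin (n + 1) → ℝ) (c : ℝ) (a : ℕ) :
    lag θ (fun j => c * f j) a = c * lag θ f a := by
  unfold lag
  have : (fun j => c * f j) = c • f := rfl
  rw [this, map_smul, coeff_smul, smul_eq_mul]

theorem lag_sub {n : ℕ} (θ f g : Fin (n + 1) → ℝ) (a : ℕ) :
    lag θ (fun j => f j - g j) a = lag θ f a - lag θ g a := by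
  unfold lag
  have : (fun j => f j - g j) = f - g := rfl
  rw [this, map_sub, coeff_sub]

theorem lag_sum {n : ℕ} {ι : Type} (s : Finset ι) (θ : Fin (n + 1) → ℝ) (f : ι → Fin (n + 1) → ℝ)
    (a : ℕ) : lag θ (fun j => ∑ i ∈ s, f i j) a = ∑ i ∈ s, lag θ (f i) a := by
  unfold lag
  have : (fun j => ∑ i ∈ s, f i j) = ∑ i ∈ s, f i := by
    funext j; rw [Finset.sum_apply]
  rw [this, map_sum, finsetSum_coeff]

/-- The interpolation polynomial at a node. -/
theorem lag_eval {n : ℕ} {θ : Fin (n + 1) → ℝ} (hθ : Function.Injective θ)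
    (f : Fin (n + 1) → ℝ) (j : Fin (n + 1)) :
    ∑ a ∈ range (n + 1), lag θ f a * θ j ^ a = f j := by
  have h1 := Lagrange.eval_interpolate_at_node (s := univ) (v := θ) f hθ.injOn (Finset.mem_univ j)
  rw [← h1]
  have h2 : (Lagrange.interpolate univ θ f).degree < ((n + 1 : ℕ) : WithBot ℕ) := by
    have := Lagrange.degree_interpolate_lt (s := univ) (v := θ) f hθ.injOn
    simpa using this
  have h3 : (Lagrange.interpolate univ θ f).natDegree < n + 1 := by
    by_cases h0 : Lagrange.interpolate univ θ f = 0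
    · rw [h0]; simp
    · exact (Polynomial.natDegree_lt_iff_degree_lt h0).2 h2
  rw [Polynomial.eval_eq_sum_range' h3]
  rfl

/-- The coefficients of the interpolation of a polynomial of degree at most `n`. -/
theorem lag_poly {n : ℕ} {θ : Fin (n + 1) → ℝ} (hθ : Function.Injective θ)
    (p : Polynomial ℝ) (hp : p.natDegree ≤ n) (a : ℕ) :
    lag θ (fun j => p.eval (θ j)) a = p.coeff a := by
  unfold lag
  have h1 : p.degree < ((univ : Finset (Fin (n + 1))).card : WithBot ℕ) := by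
    rw [Finset.card_univ, Fintype.card_fin]
    exact lt_of_le_of_lt Polynomial.degree_le_natDegree (by exact_mod_cast Nat.lt_succ_of_le hp)
  rw [← Lagrange.eq_interpolate hθ.injOn h1]

end Pool.M5.L48
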