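import Pool.Agent.H48.M5.L1X
import Pool.Agent.H86.OC.ROW
import Pool.Agent.H86.M5.Tim
import Pool.Agent.H86.M5.Qnt
import Pool.Agent.H54.M5.Span
import Pool.Agent.H92.M5.SprgT
import Pool.Agent.H92.M5.Als
import Pool.Agent.H21.M5.Nlc
import Pool.Agent.H41.L1.SPF
import Pool.Agent.H41.L1.REMS
import Pool.Agent.H31.M5.L1W
import Pool.Agent.H33.M5.N1

/-!
# L1 and N1 (pure part of the slope law)
-/

set_option autoImplicit false

namespace Pool.M5

/-- SPRA. -/
theorem spra_thm : SPRAStmt := S48.spra_thm sprg_thm Pool.L1.sprf_thm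

/-- **Lemma L1.** -/
theorem l1_thm : L1Stmt :=
  S48.l1_of_rows Pool.OC.RS.row_M5 T86.tim_thm T86.tic_thm Q86.qnt_thm rwa_thm spra_thm nlc_thm
    A92.als_thm Pool.L1.lam_thm Pool.L1.rem_thm

/-- **Lemma L1**, with nodes. -/
theorem l1w : L1WStmt := l1w_thm l1_thm T86.tic_thm

/-- **Lemma N1.** -/
theorem n1 : N1Stmt := n1_thm Pool.OC.RS.row_M5

end Pool.M5
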