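import Pool.Agent.H48.M5.SprA
import Pool.Agent.H48.M5.Lag
import Pool.Agent.H87.M5.Rwa

/-!
# L1: the last step

Every reference has the maximal label, the gradients of the pairs relative to the reference are
small, the position is full given the times: the coefficients are small.
-/

set_option autoImplicit false

namespace Pool.M5.S48

open Finset Real Pool.M5
open Pool.Agent.H49.Ent Pool.Agent.H32.Dense Pool.STK Pool.KAF Pool.KVA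

section

variable {k n K : ℕ}

/-- The property of REM for one `ε`. -/
def RemAt (k K : ℕ) (C ε : ℝ) (X₀ : ℕ) : Prop :=
  ∀ (Ω ξ : Type) [Fintype Ω]
    (Q : Ω → ℝ) (X r : ℕ) (y : Ω → Fin k → ℤ) (x : Ω → ξ) (a : ξ → Mon k K → ℝ) (ι M : ℝ),
    IsLaw Q → X₀ ≤ X → (∀ ω j, |(y ω j : ℝ)| ≤ 2 ^ X) → 0 ≤ ι → 1 ≤ ι * X →
    (k - ι) * X * Real.log 2 ≤ CH Q y x → (∀ z i, |a z i| ≤ (2 : ℝ) ^ (ι * X)) → 0 ≤ M →
    M ≤ (r : ℝ) →
    Pr Q {ω | (2 : ℝ) ^ (-M) < ‖fun j => ∑ i : Mon k K, a (x ω) i *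
      dmono (i : Fin k → ℕ) (fun j => ⌊(2 : ℝ) ^ r * (y ω j / 2 ^ X)⌋ / 2 ^ r) j‖} ≤ ε →
    Pr Q {ω | ∃ i : Mon k K, (2 : ℝ) ^ (C * Real.sqrt ι * X - M) < |a (x ω) i|} ≤
      2 * ε + C * Real.sqrt ι

/-- The coefficients of a pair relative to the reference, as a function of the times. -/
noncomputable def rsT {I : Type} (d : LDat k n I)
    (z : (Fin (n + 1) → d.Tau) × (d.Tau × d.Tau)) (i : I) : ℝ :=
  (d.co z.2.2 i - d.co z.2.1 i) -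
    ∑ a : Fin n, (d.th z.2.2 ^ (a.val + 1) - d.th z.2.1 ^ (a.val + 1)) *
      lag (fun j => d.th (z.1 j)) (fun j => d.co (z.1 j) i) (a.val + 1)

/-- The nodes are separated. -/
def sepT {I : Type} (d : LDat k n I) (k₀ : ℕ) (z : Fin (n + 1) → d.Tau) : Prop :=
  ∀ j j', j ≠ j' → (2 : ℝ) ^ (-(k₀ : ℤ)) ≤ |d.th (z j) - d.th (z j')|

open Classical in
/-- The same, cut off. -/
noncomputable def rsC {I : Type} (d : LDat k n I) (k₀ : ℕ)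
    (z : (Fin (n + 1) → d.Tau) × (d.Tau × d.Tau)) (i : I) : ℝ :=
  if sepT d k₀ z.1 then rsT d z i else 0

theorem rsC_le {I : Type} [Fintype I] (b : Bas k I) (d : LDat k n I) {A : ℕ} {c : ℝ}
    (hOK : d.OK b A c) (k₀ : ℕ) (z : (Fin (n + 1) → d.Tau) × (d.Tau × d.Tau)) (i : I) :
    |rsC d k₀ z i| ≤ (2 + (n + 1) ^ 2 * CA n k₀) * (2 : ℝ) ^ c := by
  have hCA := CA_pos n k₀
  have h2c : (0 : ℝ) < (2 : ℝ) ^ c := by positivity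
  unfold rsC
  split_ifs with hs
  · unfold rsT
    have h1 : |d.co z.2.2 i - d.co z.2.1 i| ≤ 2 * (2 : ℝ) ^ c := by
      have k1 := hOK.hco z.2.2 i
      have k2 := hOK.hco z.2.1 i
      have k3 := abs_sub (d.co z.2.2 i) (d.co z.2.1 i)
      linarith
    have h2 : ∀ a : Fin n, |(d.th z.2.2 ^ (a.val + 1) - d.th z.2.1 ^ (a.val + 1)) *
        lag (fun j => d.th (z.1 j)) (fun j => d.co (z.1 j) i) (a.val + 1)| ≤
        CA n k₀ * (2 : ℝ) ^ c := by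
      intro a
      rw [abs_mul]
      have k1 := hOK.hth z.2.2
      have k2 := hOK.hth z.2.1
      have k3 : |d.th z.2.2 ^ (a.val + 1) - d.th z.2.1 ^ (a.val + 1)| ≤ 1 := by
        rw [abs_le]
        have a1 : d.th z.2.2 ^ (a.val + 1) ≤ 1 := pow_le_one₀ k1.1 k1.2.le
        have a2 : d.th z.2.1 ^ (a.val + 1) ≤ 1 := pow_le_one₀ k2.1 k2.2.le
        have a3 : 0 ≤ d.th z.2.2 ^ (a.val + 1) := pow_nonneg k1.1 _
        have a4 : 0 ≤ d.th z.2.1 ^ (a.val + 1) := pow_nonneg k2.1 _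
        constructor <;> linarith
      have k4 : |lag (fun j => d.th (z.1 j)) (fun j => d.co (z.1 j) i) (a.val + 1)| ≤
          CA n k₀ * (2 : ℝ) ^ c := by
        unfold CA
        refine L48.lag_le _ _ (fun j => ?_) hs (fun j => hOK.hco _ i) _
        have k5 := hOK.hth (z.1 j)
        rw [abs_of_nonneg k5.1]
        exact k5.2.le
      calc _ ≤ 1 * (CA n k₀ * (2 : ℝ) ^ c) := mul_le_mul k3 k4 (abs_nonneg _) zero_le_one
        _ = CA n k₀ * (2 : ℝ) ^ c := one_mul _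
    have h3 : |∑ a : Fin n, (d.th z.2.2 ^ (a.val + 1) - d.th z.2.1 ^ (a.val + 1)) *
        lag (fun j => d.th (z.1 j)) (fun j => d.co (z.1 j) i) (a.val + 1)| ≤
        n * (CA n k₀ * (2 : ℝ) ^ c) := by
      refine (Finset.abs_sum_le_sum_abs _ _).trans ((Finset.sum_le_sum fun a _ => h2 a).trans ?_)
      rw [Finset.sum_const, Finset.card_univ, Fintype.card_fin, nsmul_eq_mul]
    have h4 : (n : ℝ) * (CA n k₀ * (2 : ℝ) ^ c) ≤ (n + 1) ^ 2 * CA n k₀ * (2 : ℝ) ^ c := by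
      rw [mul_assoc]
      refine mul_le_mul_of_nonneg_right ?_ (by positivity)
      have : (0 : ℝ) ≤ n := Nat.cast_nonneg n
      nlinarith
    calc _ ≤ |d.co z.2.2 i - d.co z.2.1 i| +
          |∑ a : Fin n, (d.th z.2.2 ^ (a.val + 1) - d.th z.2.1 ^ (a.val + 1)) *
            lag (fun j => d.th (z.1 j)) (fun j => d.co (z.1 j) i) (a.val + 1)| := abs_sub _ _
      _ ≤ _ := by linarith
  · rw [abs_zero]
    positivity

/-- The position of the line is full given all the times. -/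
theorem full_times {I : Type} [Fintype I] (b : Bas k I) (d : LDat k n I) {A : ℕ} {c ι ε₀ : ℝ}
    {j₀ : ℕ} (hOK : d.OK b A c) (hH1 : d.H1 ι j₀ ε₀) (hH3 : d.H3 ι) {ι' : ℝ}
    (hι : ι * Real.log 2 + (n + 3) * ι ≤ ι' * Real.log 2) :
    (k - ι') * d.X * Real.log 2 ≤ CH (d.Q4 0) (fun u => d.y (d.L (u.1 0)))
      (fun u => ((fun j => d.T (u.1 j)), (d.T u.2.1, d.T u.2.2))) := by
  have hp := hOK.law
  have hQ := RWA.Q4_isLaw d hp 0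
  have h1 := RWA.Q4_mi d hp 0 hH1.1
  have h2 : MI (d.Q4 0) (fun u => d.y (d.L (u.1 0)))
      (fun u => ((fun j => d.T (u.1 j)), (d.T u.2.1, d.T u.2.2))) (fun _ => ()) ≤
      (n + 3) * (ι * d.X) := by
    refine le_trans (Pool.OC.mi_mono_left hQ.nonneg _ _ _ _ ?_) h1
    intro u u' hu hu' h
    have e1 : d.L u.2.1 = d.L u'.2.1 := (Prod.ext_iff.1 h).1
    show d.y (d.L (u.1 0)) = d.y (d.L (u'.1 0))
    rw [(RWA.Q4_pos d hp hu).2.2.1, (RWA.Q4_pos d hp hu').2.2.1, e1]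
  rw [Pool.CLU.MI_eq hQ.nonneg] at h2
  have h3 : CH (d.Q4 0) (fun u => d.y (d.L (u.1 0))) (fun _ => ()) =
      H d.P (fun ω => d.y (d.L ω)) := by
    have e1 : H (d.Q4 0) (fun u => (d.y (d.L (u.1 0)), ())) =
        H (d.Q4 0) (fun u => d.y (d.L (u.1 0))) :=
      H_congr hQ.nonneg (fun _ _ _ _ h => Prod.ext h rfl) fun _ _ _ _ h => (Prod.ext_iff.mp h).1
    have e2 : H (d.Q4 0) (fun _ => ()) = 0 := H_const hQ.sum_one ()
    have e3 : H (d.Q4 0) (fun u => d.y (d.L (u.1 0))) = H d.P (fun ω => d.y (d.L ω)) :=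
      (Pool.L1.Q4_P d hp 0).H (fun ω => d.y (d.L ω))
    unfold CH
    rw [e1, e2, sub_zero, e3]
  have h4 : CH (d.Q4 0) (fun u => d.y (d.L (u.1 0)))
      (fun u => (((fun j => d.T (u.1 j)), (d.T u.2.1, d.T u.2.2)), ())) =
      CH (d.Q4 0) (fun u => d.y (d.L (u.1 0)))
      (fun u => ((fun j => d.T (u.1 j)), (d.T u.2.1, d.T u.2.2))) :=
    CH_congr hQ.nonneg (fun _ _ _ _ h => (Prod.ext_iff.mp h).1)
      (fun _ _ _ _ h => (Prod.ext_iff.mp h).1)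
      (fun _ _ _ _ h => (Prod.ext_iff.mp h).1) (fun _ _ _ _ h => Prod.ext h rfl)
  rw [h3, h4] at h2
  have h5 := hH3
  unfold LDat.H3 at h5
  have hX : (0 : ℝ) ≤ d.X := Nat.cast_nonneg _
  have h6 : (ι * Real.log 2 + (n + 3) * ι) * d.X ≤ ι' * Real.log 2 * d.X :=
    mul_le_mul_of_nonneg_right hι hX
  nlinarith

/-- **The last step.** -/
theorem fin_one {C ε : ℝ} {X₁ : ℕ} (hRem : RemAt k K C ε X₁) (b : Bas k (Mon k K))
    (hD : ∀ i, b.D i = dmono (i : Fin k → ℕ)) (d : LDat k n (Mon k K)) {A ns h a k₀ j₀ : ℕ}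
    {c ι ε₀ ι' : ℝ} (m : (Fin (n + 1) → d.Om) → ℤ) (hOK : d.OK b A c)
    (hS : Siz b d ns h m c) (hX : X₁ ≤ d.X) (hH1 : d.H1 ι j₀ ε₀) (hH3 : d.H3 ι)
    (hι : ι * Real.log 2 + (n + 3) * ι ≤ ι' * Real.log 2) (hι0 : 0 ≤ ι') (h1 : 1 ≤ ι' * d.X)
    (hco : (2 + (n + 1) ^ 2 * CA n k₀) * (2 : ℝ) ^ c ≤ (2 : ℝ) ^ (ι' * d.X))
    {M : ℝ} (hM0 : 0 ≤ M) (hM : M ≤ (8 * ns : ℕ))
    (hMb : (n + 1) ^ 2 * (2 : ℝ) ^ ((a : ℤ) + 4 - 2 * ns) ≤ (2 : ℝ) ^ (-M))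
    {p₁ p₂ p₃ p₄ : ℝ}
    (hN : Pr (d.Q4 0) {u | d.sep k₀ u.1 ∧ (2 : ℝ) ^ (-(4 * ns : ℤ)) ≤ |d.ta u.2| ∧
      (n + 1) ^ 2 * (2 : ℝ) ^ ((a : ℤ) + 4 - m u.1) * |d.ta u.2| < ‖d.gr b (8 * ns) u‖} ≤ p₁)
    (hsep : Pr d.Qr {v | ¬ d.sep k₀ v} ≤ p₂)
    (hta : Pr (d.Qp 0) {w | |d.ta w| < (2 : ℝ) ^ (-(4 * ns : ℤ))} ≤ p₃)
    (hm : Pr d.Qr {v | m v < 2 * ns} ≤ p₄) (hp : p₁ + p₂ + p₃ + p₄ ≤ ε) :
    Pr (d.Q4 0) {u | ∃ i, (2 : ℝ) ^ (C * Real.sqrt ι' * d.X - M) < |d.rs u i|} ≤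
      2 * ε + C * Real.sqrt ι' + p₂ := by
  classical
  have hlaw := hOK.law
  have hQ := RWA.Q4_isLaw d hlaw 0
  have hn0 : (0 : ℝ) ≤ n := Nat.cast_nonneg n
  -- the coefficients as functions of the times
  have hrs : ∀ u : (Fin (n + 1) → d.Om) × (d.Om × d.Om), d.sep k₀ u.1 → ∀ i,
      rsC d k₀ ((fun j => d.T (u.1 j)), (d.T u.2.1, d.T u.2.2)) i = d.rs u i := by
    intro u hu i
    unfold rsC
    have hs : sepT d k₀ (fun j => d.T (u.1 j)) := hu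
    rw [if_pos hs]
    rfl
  have hsep4 : Pr (d.Q4 0) {u | ¬ d.sep k₀ u.1} ≤ p₂ :=
    le_trans (le_of_eq (Pool.L1.Pr_marg (RWA.Q4_fst d hlaw 0) {v | ¬ d.sep k₀ v})) hsep
  have hm4 : Pr (d.Q4 0) {u | m u.1 < 2 * ns} ≤ p₄ :=
    le_trans (le_of_eq (Pool.L1.Pr_marg (RWA.Q4_fst d hlaw 0) {v | m v < 2 * ns})) hm
  have hta4 : Pr (d.Q4 0) {u | |d.ta u.2| < (2 : ℝ) ^ (-(4 * ns : ℤ))} ≤ p₃ :=
    le_trans (le_of_eq (Pool.L1.Pr_marg (RWA.Q4_snd d hlaw 0)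
      {w | |d.ta w| < (2 : ℝ) ^ (-(4 * ns : ℤ))})) hta
  have key := hRem ((Fin (n + 1) → d.Om) × (d.Om × d.Om))
    ((Fin (n + 1) → d.Tau) × (d.Tau × d.Tau)) (d.Q4 0) d.X (8 * ns)
    (fun u => d.y (d.L (u.1 0))) (fun u => ((fun j => d.T (u.1 j)), (d.T u.2.1, d.T u.2.2)))
    (rsC d k₀) ι' M hQ hX
    (fun u j => by
      have h2 := hOK.hy (d.L (u.1 0)) j
      unfold LDat.yR at h2
      rwa [abs_div, abs_of_pos (by positivity : (0 : ℝ) < 2 ^ d.X), div_le_one (by positivity)]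
        at h2)
    hι0 h1 (full_times b d hOK hH1 hH3 hι)
    (fun z i => (rsC_le b d hOK k₀ z i).trans hco) hM0 hM ?_
  · -- conclusion
    have h2 : Pr (d.Q4 0) {u | ∃ i, (2 : ℝ) ^ (C * Real.sqrt ι' * d.X - M) < |d.rs u i|} ≤
        Pr (d.Q4 0) ({u | ∃ i : Mon k K, (2 : ℝ) ^ (C * Real.sqrt ι' * d.X - M) <
          |rsC d k₀ ((fun j => d.T (u.1 j)), (d.T u.2.1, d.T u.2.2)) i|} ∪
          {u | ¬ d.sep k₀ u.1}) := by
      refine Pool.KAF.Pr_mono hQ.nonneg fun u _ hu => ?_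
      by_cases hs : d.sep k₀ u.1
      · obtain ⟨i, hi⟩ := hu
        refine Or.inl ⟨i, ?_⟩
        rw [hrs u hs i]
        exact hi
      · exact Or.inr hs
    have h3 := Pool.KAF.Pr_union_le hQ.nonneg {u | ∃ i : Mon k K,
      (2 : ℝ) ^ (C * Real.sqrt ι' * d.X - M) <
          |rsC d k₀ ((fun j => d.T (u.1 j)), (d.T u.2.1, d.T u.2.2)) i|} {u | ¬ d.sep k₀ u.1}
    linarith
  · -- the gradients
    set E₁ : Set ((Fin (n + 1) → d.Om) × (d.Om × d.Om)) :=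
      {u | d.sep k₀ u.1 ∧ (2 : ℝ) ^ (-(4 * ns : ℤ)) ≤ |d.ta u.2| ∧
      (n + 1) ^ 2 * (2 : ℝ) ^ ((a : ℤ) + 4 - m u.1) * |d.ta u.2| < ‖d.gr b (8 * ns) u‖} with hE₁
    set E₂ : Set ((Fin (n + 1) → d.Om) × (d.Om × d.Om)) := {u | ¬ d.sep k₀ u.1} with hE₂
    set E₃ : Set ((Fin (n + 1) → d.Om) × (d.Om × d.Om)) :=
      {u | |d.ta u.2| < (2 : ℝ) ^ (-(4 * ns : ℤ))} with hE₃
    set E₄ : Set ((Fin (n + 1) → d.Om) × (d.Om × d.Om)) := {u | m u.1 < 2 * ns} with hE₄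
    have h2 : Pr (d.Q4 0) {ω | (2 : ℝ) ^ (-M) < ‖fun j => ∑ i : Mon k K,
        rsC d k₀ ((fun j => d.T (ω.1 j)), (d.T ω.2.1, d.T ω.2.2)) i *
        dmono (i : Fin k → ℕ) (fun j => ⌊(2 : ℝ) ^ (8 * ns) * (d.y (d.L (ω.1 0)) j / 2 ^ d.X)⌋ /
          2 ^ (8 * ns)) j‖} ≤ Pr (d.Q4 0) ((E₁ ∪ E₂) ∪ (E₃ ∪ E₄)) := by
      refine Pool.KAF.Pr_mono hQ.nonneg fun u _ hu => ?_
      by_contra hcon
      have hcon' : ¬ (((u ∈ E₁) ∨ (u ∈ E₂)) ∨ ((u ∈ E₃) ∨ (u ∈ E₄))) := hcon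
      rw [not_or, not_or, not_or] at hcon'
      obtain ⟨⟨g1, g2⟩, ⟨g3, g4⟩⟩ := hcon'
      have hs : d.sep k₀ u.1 := not_not.1 g2
      have ht : (2 : ℝ) ^ (-(4 * ns : ℤ)) ≤ |d.ta u.2| := not_lt.1 g3
      have hmu : m u.1 = 2 * ns := le_antisymm (hS.m2 _) (not_lt.1 g4)
      have hg : ‖d.gr b (8 * ns) u‖ ≤ (2 : ℝ) ^ (-M) := by
        have h5 : ¬ ((n + 1) ^ 2 * (2 : ℝ) ^ ((a : ℤ) + 4 - m u.1) * |d.ta u.2| <
            ‖d.gr b (8 * ns) u‖) := fun h6 => g1 ⟨hs, ht, h6⟩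
        rw [not_lt, hmu] at h5
        refine h5.trans (le_trans ?_ hMb)
        calc ((n : ℝ) + 1) ^ 2 * (2 : ℝ) ^ ((a : ℤ) + 4 - 2 * ns) * |d.ta u.2|
            ≤ ((n : ℝ) + 1) ^ 2 * (2 : ℝ) ^ ((a : ℤ) + 4 - 2 * ns) * 1 :=
              mul_le_mul_of_nonneg_left (ta_le b d hOK u.2) (by positivity)
          _ = ((n : ℝ) + 1) ^ 2 * (2 : ℝ) ^ ((a : ℤ) + 4 - 2 * ns) := mul_one _
      have h7 : (fun j => ∑ i : Mon k K,
          rsC d k₀ ((fun j => d.T (u.1 j)), (d.T u.2.1, d.T u.2.2)) i *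
          dmono (i : Fin k → ℕ) (fun j => ⌊(2 : ℝ) ^ (8 * ns) *
            (d.y (d.L (u.1 0)) j / 2 ^ d.X)⌋ / 2 ^ (8 * ns)) j) = d.gr b (8 * ns) u := by
        funext j
        unfold LDat.gr grd
        refine Finset.sum_congr rfl fun i _ => ?_
        rw [hrs u hs i, hD i]
        rfl
      have hu' : (2 : ℝ) ^ (-M) < ‖fun j => ∑ i : Mon k K,
        rsC d k₀ ((fun j => d.T (u.1 j)), (d.T u.2.1, d.T u.2.2)) i *
        dmono (i : Fin k → ℕ) (fun j => ⌊(2 : ℝ) ^ (8 * ns) * (d.y (d.L (u.1 0)) j / 2 ^ d.X)⌋ /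
          2 ^ (8 * ns)) j‖ := hu
      rw [h7] at hu'
      exact absurd hg (not_le.2 hu')
    have h3 := Pool.KAF.Pr_union_le hQ.nonneg (E₁ ∪ E₂) (E₃ ∪ E₄)
    have h4 := Pool.KAF.Pr_union_le hQ.nonneg E₁ E₂
    have h5 := Pool.KAF.Pr_union_le hQ.nonneg E₃ E₄
    linarith

end

end Pool.M5.S48
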