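import Pool.Agent.H48.M5.Spr
import Pool.Agent.H29.M5.Zr
import Pool.Agent.H41.L1.LAM

/-!
# SPRA: assembly of the telescope
-/

set_option autoImplicit false

namespace Pool.M5.S48

open Finset Real Pool.M5
open Pool.Agent.H49.Ent Pool.Agent.H32.Dense Pool.STK Pool.KAF

/-- Conditional laws only depend on the cell. -/
theorem cond_congr_at {Ω S U : Type} [Fintype Ω] {p : Ω → ℝ} (F : Ω → S) (G : Ω → U) (ω : Ω)
    (h : ∀ ω', F ω' = F ω ↔ G ω' = G ω) : cond p F (F ω) = cond p G (G ω) := by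
  classical
  funext ω'
  unfold Pool.Agent.H49.Ent.cond law
  have h1 : ∀ v, (F v = F ω) = (G v = G ω) := fun v => propext (h v)
  simp only [h1]

section

variable {k n : ℕ} {I : Type} [Fintype I]

theorem pol_le (b : Bas k I) (a : I → ℝ) (x : Fin k → ℝ) {R : ℝ} (hR : ∀ i, |a i| ≤ R)
    (hx : ∀ j, |x j| ≤ 1) : |pol b a x| ≤ R * (b.C * Fintype.card I) := by
  unfold pol
  calc |∑ i, a i * b.g i x| ≤ ∑ i, |a i * b.g i x| := Finset.abs_sum_le_sum_abs _ _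
    _ ≤ ∑ _i : I, R * b.C := by
      refine Finset.sum_le_sum fun i _ => ?_
      rw [abs_mul]
      exact mul_le_mul (hR i) (b.hg i x hx) (abs_nonneg _) ((abs_nonneg _).trans (hR i))
    _ = R * (b.C * Fintype.card I) := by
      rw [Finset.sum_const, Finset.card_univ, nsmul_eq_mul]
      ring

/-- The unknown numbers relative to a separated reference are bounded. -/
theorem cs_le (b : Bas k I) (d : LDat k n I) {A ns h : ℕ} {m : (Fin (n + 1) → d.Om) → ℤ} {c : ℝ}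
    (hOK : d.OK b A c) (hS : Siz b d ns h m c) {k₀ : ℕ} {v : Fin (n + 1) → d.Om}
    (hv : d.sep k₀ v) (a : Fin n) :
    |d.cs b v a| ≤ 1 + CA n k₀ * (2 : ℝ) ^ ((ns : ℝ) / 2) := by
  have h1 : |pol b (d.As v a) (d.yR (d.L (v 0)))| ≤
      CA n k₀ * (2 : ℝ) ^ c * (b.C * Fintype.card I) :=
    pol_le b _ _ (fun i => As_le b d hOK hv a i) (fun j => hOK.hy _ j)
  have h2 : CA n k₀ * (2 : ℝ) ^ c * (b.C * Fintype.card I) ≤
      CA n k₀ * (2 : ℝ) ^ ((ns : ℝ) / 2) := by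
    rw [mul_assoc]
    refine mul_le_mul_of_nonneg_left ?_ (CA_pos n k₀).le
    refine le_trans (mul_le_mul_of_nonneg_left ?_ (by positivity)) hS.cn
    exact mul_le_mul_of_nonneg_left (by linarith) (le_trans zero_le_one b.hC)
  have h3 := hOK.hc (d.L (v 0)) a
  unfold LDat.cs
  calc |d.cR (d.L (v 0)) a - pol b (d.As v a) (d.yR (d.L (v 0)))|
      ≤ |d.cR (d.L (v 0)) a| + |pol b (d.As v a) (d.yR (d.L (v 0)))| := abs_sub _ _
    _ ≤ 1 + CA n k₀ * (2 : ℝ) ^ ((ns : ℝ) / 2) := add_le_add h3 (h1.trans h2)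

theorem bv_le (n k₀ : ℕ) : ∃ n₀ : ℕ, ∀ (k : ℕ) (I : Type) [Fintype I] (b : Bas k I)
    (d : LDat k n I) (A ns h : ℕ) (m : (Fin (n + 1) → d.Om) → ℤ) (c : ℝ), d.OK b A c →
    Siz b d ns h m c → n₀ ≤ ns → ∀ v a, |(2 : ℝ) ^ (8 * ns) * d.bv b m k₀ v a| ≤ 2 ^ (11 * ns) := by
  obtain ⟨n₁, hn₁⟩ := pow_unbounded_of_one_lt (1 + CA n k₀) (one_lt_two : (1 : ℝ) < 2)
  refine ⟨2 * n₁, ?_⟩
  intro k I _ b d A ns h m c hOK hS hns v a
  have h8 : (0 : ℝ) < 2 ^ (8 * ns) := by positivity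
  rw [abs_mul, abs_of_pos h8]
  unfold LDat.bv
  split_ifs with hv
  · have h1 := cs_le b d hOK hS hv a
    have h2 : (1 : ℝ) ≤ (2 : ℝ) ^ ((ns : ℝ) / 2) := Real.one_le_rpow one_le_two (by positivity)
    have h3 : 1 + CA n k₀ * (2 : ℝ) ^ ((ns : ℝ) / 2) ≤ (2 : ℝ) ^ ns := by
      have h4 : (1 + CA n k₀) ≤ (2 : ℝ) ^ ((ns : ℝ) / 2) := by
        refine hn₁.le.trans ?_
        rw [← Real.rpow_natCast]
        refine Real.rpow_le_rpow_of_exponent_le one_le_two ?_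
        have : (2 * n₁ : ℝ) ≤ ns := by exact_mod_cast hns
        linarith
      calc 1 + CA n k₀ * (2 : ℝ) ^ ((ns : ℝ) / 2)
          ≤ (1 + CA n k₀) * (2 : ℝ) ^ ((ns : ℝ) / 2) := by
            have := CA_pos n k₀
            nlinarith
        _ ≤ (2 : ℝ) ^ ((ns : ℝ) / 2) * (2 : ℝ) ^ ((ns : ℝ) / 2) :=
            mul_le_mul_of_nonneg_right h4 (by positivity)
        _ = (2 : ℝ) ^ ns := by
            rw [← Real.rpow_add (by norm_num), ← Real.rpow_natCast]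
            congr 1
            ring
    have h5 : (2 : ℝ) ^ m v ≤ (2 : ℝ) ^ (2 * ns) := by
      rw [← zpow_natCast]
      refine zpow_le_zpow_right₀ one_le_two ?_
      have := hS.m2 v
      push_cast
      exact this
    rw [abs_mul, abs_of_pos (by positivity : (0 : ℝ) < (2 : ℝ) ^ m v)]
    calc (2 : ℝ) ^ (8 * ns) * ((2 : ℝ) ^ m v * |d.cs b v a|)
        ≤ (2 : ℝ) ^ (8 * ns) * ((2 : ℝ) ^ (2 * ns) * (2 : ℝ) ^ ns) :=
          mul_le_mul_of_nonneg_left (mul_le_mul h5 (h1.trans h3) (abs_nonneg _) (by positivity))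
            h8.le
      _ = 2 ^ (11 * ns) := by
          rw [← pow_add, ← pow_add]
          congr 1
          ring
  · rw [abs_zero, mul_zero]
    positivity

/-- The cells of `SLO` and the cells `GA` of a separated reference. -/
theorem cell_iff (b : Bas k I) (d : LDat k n I) (m : (Fin (n + 1) → d.Om) → ℤ) (k₀ s : ℕ)
    {v : Fin (n + 1) → d.Om} (hv : d.sep k₀ v) (v' : Fin (n + 1) → d.Om) :
    d.GA b m s v' = d.GA b m s v ↔
      Pool.SLO.Cl (d.lb m) d.yv (d.bv b m k₀) s v' = Pool.SLO.Cl (d.lb m) d.yv (d.bv b m k₀) s v := by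
  have hsep : (∀ j, d.T (v' j) = d.T (v j)) → d.sep k₀ v' := by
    intro hT j j' hj
    rw [hT j, hT j']
    exact hv j j' hj
  have hfl : ∀ w : Fin (n + 1) → d.Om, d.sep k₀ w → ∀ a,
      ⌊(2 : ℝ) ^ s * d.bv b m k₀ w a⌋ = ⌊(2 : ℝ) ^ ((s : ℤ) + m w) * d.cs b w a⌋ := by
    intro w hw a
    unfold LDat.bv
    rw [if_pos hw, zpow_add₀ (two_ne_zero), zpow_natCast, mul_assoc]
  constructor
  · intro hG
    have hT : ∀ j, d.T (v' j) = d.T (v j) := GA_T b d hG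
    unfold Pool.SLO.Cl LDat.lb
    refine Prod.ext ?_ (Prod.ext ?_ ?_)
    · exact congrArg (fun z => z.1) hG
    · exact congrArg (fun z => z.2.1) hG
    · funext a
      have h1 := congrFun (congrArg (fun z => z.2.2) hG) a
      show ⌊(2 : ℝ) ^ s * d.bv b m k₀ v' a⌋ = ⌊(2 : ℝ) ^ s * d.bv b m k₀ v a⌋
      rw [hfl v' (hsep hT), hfl v hv]
      exact h1
  · intro hC
    have h0 : d.lb m v' = d.lb m v := congrArg (fun z => z.1) hC
    have hT : ∀ j, d.T (v' j) = d.T (v j) := fun j => congrFun (congrArg Prod.fst h0) j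
    unfold LDat.GA
    refine Prod.ext ?_ (Prod.ext ?_ ?_)
    · exact h0
    · exact congrArg (fun z => z.2.1) hC
    · funext a
      have h1 := congrFun (congrArg (fun z => z.2.2) hC) a
      have h2 : ⌊(2 : ℝ) ^ s * d.bv b m k₀ v' a⌋ = ⌊(2 : ℝ) ^ s * d.bv b m k₀ v a⌋ := h1
      rw [hfl v' (hsep hT), hfl v hv] at h2
      exact h2

open Classical in
/-- The bound for the strips. -/
noncomputable def Mf (b : Bas k I) (d : LDat k n I) (m : (Fin (n + 1) → d.Om) → ℤ) (k₀ K s : ℕ)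
    (v : Fin (n + 1) → d.Om) : ℝ :=
  if d.sep k₀ v then max 0 (Pool.SLO.Nb d.Qr (d.lb m) d.yv (d.bv b m k₀) K s v) else 1

theorem Mf_nonneg (b : Bas k I) (d : LDat k n I) (m : (Fin (n + 1) → d.Om) → ℤ) (k₀ K s : ℕ)
    (v : Fin (n + 1) → d.Om) : 0 ≤ Mf b d m k₀ K s v := by
  unfold Mf
  split_ifs
  · exact le_max_left _ _
  · exact zero_le_one

theorem Mf_cell (b : Bas k I) (d : LDat k n I) (m : (Fin (n + 1) → d.Om) → ℤ) (k₀ K s : ℕ)
    {v v' : Fin (n + 1) → d.Om} (hG : d.GA b m s v = d.GA b m s v') :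
    Mf b d m k₀ K s v = Mf b d m k₀ K s v' := by
  have hT : ∀ j, d.T (v j) = d.T (v' j) := GA_T b d hG
  unfold Mf
  by_cases hv : d.sep k₀ v
  · have hv' : d.sep k₀ v' := by
      intro j j' hj
      rw [← hT j, ← hT j']
      exact hv j j' hj
    rw [if_pos hv, if_pos hv', Pool.SLO.Nb_cell (d.lb m) d.yv (d.bv b m k₀)
      ((cell_iff b d m k₀ s hv' v).1 hG)]
  · have hv' : ¬ d.sep k₀ v' := by
      intro h
      refine hv fun j j' hj => ?_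
      rw [hT j, hT j']
      exact h j j' hj
    rw [if_neg hv, if_neg hv']

theorem Mf_strip (b : Bas k I) (d : LDat k n I) (m : (Fin (n + 1) → d.Om) → ℤ) (k₀ : ℕ) {K : ℕ}
    (hK : 1 ≤ K) (hQ : IsLaw d.Qr) (s : ℕ) {v : Fin (n + 1) → d.Om} (hv : 0 < d.Qr v)
    (ξ : Fin k → ℝ) (hξ : 0 < ‖ξ‖) :
    Pr (cond d.Qr (d.GA b m s) (d.GA b m s v))
      {v' | |∑ j, ξ j * (d.yR (d.L (v' 0)) j - d.yR (d.L (v 0)) j)| <
        ‖ξ‖ * (2 : ℝ) ^ (-((s : ℤ) + K))} ≤ Mf b d m k₀ K s v := by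
  unfold Mf
  split_ifs with hs
  · refine le_trans ?_ (le_max_right _ _)
    rw [cond_congr_at _ _ v (cell_iff b d m k₀ s hs)]
    refine le_trans (le_of_eq ?_)
      (Pool.SLO.strip (d.lb m) d.yv (d.bv b m k₀) hQ hK s hv ξ hξ)
    congr 1
    ext v'
    have e1 : ‖ξ‖ * (2 : ℝ) ^ (-((s : ℤ) + K)) = ‖ξ‖ / 2 ^ (s + K) := by
      rw [zpow_neg, div_eq_mul_inv]
      congr 2
    show |∑ j, ξ j * (d.yR (d.L (v' 0)) j - d.yR (d.L (v 0)) j)| <
        ‖ξ‖ * (2 : ℝ) ^ (-((s : ℤ) + K)) ↔ _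
    rw [e1]
    rfl
  · exact Pool.KAF.Pr_le_one (Pool.KX.AVG.cond_law hQ _ hv) _

/-- The sum of the bounds. -/
theorem Mf_sum (b : Bas k I) (d : LDat k n I) (m : (Fin (n + 1) → d.Om) → ℤ) (k₀ : ℕ) {K : ℕ}
    (hK : 1 ≤ K) (hk : 1 ≤ k) (hQ : IsLaw d.Qr) {B e' io ε₆ G : ℝ} (hB : 0 ≤ B) (he' : 0 ≤ e')
    {ns m' : ℕ} (hnK : K ≤ 4 * ns) (hnX : 16 * ns ≤ d.X)
    (hb : ∀ v a, |(2 : ℝ) ^ (8 * ns) * d.bv b m k₀ v a| ≤ 2 ^ m')
    (hfull : ∀ r M, r ≤ M → M ≤ d.X → (k * ((M : ℝ) - r) - io) * Real.log 2 ≤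
      CH d.Qr (Pool.SLO.Yd d.yv M) (fun v => (d.lb m v, Pool.SLO.Yd d.yv r v)))
    (hsep : Pr d.Qr {v | ¬ d.sep k₀ v} ≤ ε₆)
    (hG : ∑ s ∈ Finset.Ico (8 * ns) (d.X - 8 * ns), Pr d.Qr {v | d.sep k₀ v ∧
      ¬ Pool.SLO.Gd B d.Qr (d.lb m) d.yv (d.bv b m k₀) K e' s v} ≤ G) :
    ∑ s ∈ Finset.Ico (8 * ns) (d.X - 8 * ns), Ex d.Qr (Mf b d m k₀ K s) ≤
      ε₆ * d.X + ((io + n * (m' + K + 2)) +
        (d.X / K) * (n * (1 + Real.log (2 * n * B + 4 * n * B * k + 2) / Real.log 2) + k + 3) +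
        d.X * (n * (n * e')) + n * (G + ε₆ * d.X + K)) := by
  classical
  have hK0 : (0 : ℝ) < K := by exact_mod_cast hK
  set X := d.X with hX
  set M : ℕ := (X - 16 * ns) / K + 1 with hM
  have hM1 : X - 16 * ns ≤ M * K := by
    have := Nat.lt_div_mul_add (a := X - 16 * ns) (b := K) (by omega)
    rw [hM, add_mul, one_mul]
    omega
  have hM2 : M * K ≤ X - 16 * ns + K := by
    rw [hM, add_mul, one_mul]
    have := Nat.div_mul_le_self (X - 16 * ns) K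
    omega
  have hε₆ : 0 ≤ ε₆ := (Pool.KAF.Pr_nonneg hQ.nonneg _).trans hsep
  have h0 := Pool.SLO.spread (p := d.Qr) (d.lb m) d.yv (d.bv b m k₀) (8 * ns) m' hQ hB hK le_rfl
    he' hb (X := X) (io := io) (fun r M' _ h1 h2 => hfull r M' h1 h2) M (by omega)
  -- the sum over the cells
  have hsub : Finset.Ico (8 * ns) (X - 8 * ns) ⊆ Finset.Ico (8 * ns) (8 * ns + M * K) := by
    intro s hs
    rw [Finset.mem_Ico] at hs ⊢
    omega
  have hNb0 : ∀ s, 0 ≤ Ex d.Qr (Pool.SLO.Nb d.Qr (d.lb m) d.yv (d.bv b m k₀) K s) := fun s =>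
    Ex_nonneg hQ.nonneg fun v hv => Pool.SLO.Nb_nonneg (d.lb m) d.yv (d.bv b m k₀) hQ hK hk s hv
  have h1 : ∀ s, Ex d.Qr (Mf b d m k₀ K s) ≤
      ε₆ + Ex d.Qr (Pool.SLO.Nb d.Qr (d.lb m) d.yv (d.bv b m k₀) K s) := by
    intro s
    have h2 : Ex d.Qr (fun v => if v ∈ {v | ¬ d.sep k₀ v} then (1 : ℝ) else 0) =
        Pr d.Qr {v | ¬ d.sep k₀ v} := by
      rw [Pool.KAF.Pr_eq]
      unfold Ex
      refine Finset.sum_congr rfl fun v _ => ?_
      show d.Qr v * (if v ∈ {v | ¬ d.sep k₀ v} then (1 : ℝ) else 0) = _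
      by_cases hv : v ∈ {v | ¬ d.sep k₀ v}
      · rw [if_pos hv, if_pos hv, mul_one]
      · rw [if_neg hv, if_neg hv, mul_zero]
    calc Ex d.Qr (Mf b d m k₀ K s) ≤ Ex d.Qr (fun v =>
          (if v ∈ {v | ¬ d.sep k₀ v} then (1 : ℝ) else 0) +
            Pool.SLO.Nb d.Qr (d.lb m) d.yv (d.bv b m k₀) K s v) := by
          refine Ex_mono hQ.nonneg fun v hv => ?_
          have h3 := Pool.SLO.Nb_nonneg (d.lb m) d.yv (d.bv b m k₀) hQ hK hk s hv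
          unfold Mf
          by_cases hs : d.sep k₀ v
          · rw [if_pos hs, if_neg (by show ¬ ¬ d.sep k₀ v; exact not_not.2 hs), zero_add,
              max_eq_right h3]
          · rw [if_neg hs, if_pos (by show ¬ d.sep k₀ v; exact hs)]
            linarith
      _ = Pr d.Qr {v | ¬ d.sep k₀ v} +
          Ex d.Qr (Pool.SLO.Nb d.Qr (d.lb m) d.yv (d.bv b m k₀) K s) := by
          rw [Ex_add, h2]
      _ ≤ _ := by linarith
  have h2 : ∑ s ∈ Finset.Ico (8 * ns) (X - 8 * ns), Ex d.Qr (Mf b d m k₀ K s) ≤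
      ε₆ * X + ∑ s ∈ Finset.Ico (8 * ns) (8 * ns + M * K),
        Ex d.Qr (Pool.SLO.Nb d.Qr (d.lb m) d.yv (d.bv b m k₀) K s) := by
    calc ∑ s ∈ Finset.Ico (8 * ns) (X - 8 * ns), Ex d.Qr (Mf b d m k₀ K s)
        ≤ ∑ s ∈ Finset.Ico (8 * ns) (X - 8 * ns), (ε₆ +
          Ex d.Qr (Pool.SLO.Nb d.Qr (d.lb m) d.yv (d.bv b m k₀) K s)) :=
          Finset.sum_le_sum fun s _ => h1 s
      _ = ((X - 8 * ns - 8 * ns : ℕ) : ℝ) * ε₆ + ∑ s ∈ Finset.Ico (8 * ns) (X - 8 * ns),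
          Ex d.Qr (Pool.SLO.Nb d.Qr (d.lb m) d.yv (d.bv b m k₀) K s) := by
          rw [Finset.sum_add_distrib, Finset.sum_const, Nat.card_Ico, nsmul_eq_mul]
      _ ≤ ε₆ * X + ∑ s ∈ Finset.Ico (8 * ns) (8 * ns + M * K),
          Ex d.Qr (Pool.SLO.Nb d.Qr (d.lb m) d.yv (d.bv b m k₀) K s) := by
          refine add_le_add ?_ (Finset.sum_le_sum_of_subset_of_nonneg hsub fun s _ _ => hNb0 s)
          rw [mul_comm]
          refine mul_le_mul_of_nonneg_left ?_ hε₆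
          exact_mod_cast (show X - 8 * ns - 8 * ns ≤ X by omega)
  -- the sum over the bad cells
  have h3 : ∑ s ∈ Finset.Ico (8 * ns) (8 * ns + M * K),
      Pr d.Qr {v | ¬ Pool.SLO.Gd B d.Qr (d.lb m) d.yv (d.bv b m k₀) K e' s v} ≤
      G + ε₆ * X + K := by
    have h4 : ∀ s, Pr d.Qr {v | ¬ Pool.SLO.Gd B d.Qr (d.lb m) d.yv (d.bv b m k₀) K e' s v} ≤
        Pr d.Qr {v | d.sep k₀ v ∧
          ¬ Pool.SLO.Gd B d.Qr (d.lb m) d.yv (d.bv b m k₀) K e' s v} + ε₆ := by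
      intro s
      refine le_trans ?_ (add_le_add le_rfl hsep)
      refine le_trans (Pool.KAF.Pr_mono hQ.nonneg (F := {v | d.sep k₀ v ∧
          ¬ Pool.SLO.Gd B d.Qr (d.lb m) d.yv (d.bv b m k₀) K e' s v} ∪ {v | ¬ d.sep k₀ v})
        fun v _ hv => ?_) (Pool.KAF.Pr_union_le hQ.nonneg _ _)
      by_cases hs : d.sep k₀ v
      · exact Or.inl ⟨hs, hv⟩
      · exact Or.inr hs
    have h5 : Finset.Ico (8 * ns) (8 * ns + M * K) =
        Finset.Ico (8 * ns) (X - 8 * ns) ∪ Finset.Ico (X - 8 * ns) (8 * ns + M * K) := by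
      rw [Finset.Ico_union_Ico_eq_Ico (by omega) (by omega)]
    have h6 : Disjoint (Finset.Ico (8 * ns) (X - 8 * ns))
        (Finset.Ico (X - 8 * ns) (8 * ns + M * K)) :=
      Finset.Ico_disjoint_Ico_consecutive _ _ _
    rw [h5, Finset.sum_union h6]
    have h7 : ∑ s ∈ Finset.Ico (X - 8 * ns) (8 * ns + M * K),
        Pr d.Qr {v | ¬ Pool.SLO.Gd B d.Qr (d.lb m) d.yv (d.bv b m k₀) K e' s v} ≤ K := by
      calc _ ≤ ∑ _s ∈ Finset.Ico (X - 8 * ns) (8 * ns + M * K), (1 : ℝ) :=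
            Finset.sum_le_sum fun s _ => Pool.KAF.Pr_le_one hQ _
        _ = ((8 * ns + M * K - (X - 8 * ns) : ℕ) : ℝ) := by
            rw [Finset.sum_const, Nat.card_Ico, nsmul_eq_mul, mul_one]
        _ ≤ K := by exact_mod_cast (by omega)
    have h8 : ∑ s ∈ Finset.Ico (8 * ns) (X - 8 * ns),
        Pr d.Qr {v | ¬ Pool.SLO.Gd B d.Qr (d.lb m) d.yv (d.bv b m k₀) K e' s v} ≤
        G + ε₆ * X := by
      calc _ ≤ ∑ s ∈ Finset.Ico (8 * ns) (X - 8 * ns), (Pr d.Qr {v | d.sep k₀ v ∧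
            ¬ Pool.SLO.Gd B d.Qr (d.lb m) d.yv (d.bv b m k₀) K e' s v} + ε₆) :=
            Finset.sum_le_sum fun s _ => h4 s
        _ ≤ G + ε₆ * X := by
            rw [Finset.sum_add_distrib, Finset.sum_const, Nat.card_Ico, nsmul_eq_mul]
            refine add_le_add hG ?_
            rw [mul_comm]
            refine mul_le_mul_of_nonneg_left ?_ hε₆
            exact_mod_cast (show X - 8 * ns - 8 * ns ≤ X by omega)
    linarith
  -- the other terms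
  have hlog : 0 ≤ n * (1 + Real.log (2 * n * B + 4 * n * B * k + 2) / Real.log 2) + k + 3 := by
    have h4 : 0 ≤ Real.log (2 * n * B + 4 * n * B * k + 2) := by
      refine Real.log_nonneg ?_
      have : 0 ≤ 2 * n * B + 4 * n * B * k := by positivity
      linarith
    positivity
  have hMK : (M : ℝ) * K ≤ X := by exact_mod_cast (show M * K ≤ X by omega)
  have hMX : (M : ℝ) ≤ X / K := by rwa [le_div_iff₀ hK0]
  have h4 : (M : ℝ) * (n * (1 + Real.log (2 * n * B + 4 * n * B * k + 2) / Real.log 2) + k + 3) ≤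
      (X / K) * (n * (1 + Real.log (2 * n * B + 4 * n * B * k + 2) / Real.log 2) + k + 3) :=
    mul_le_mul_of_nonneg_right hMX hlog
  have h5 : (M : ℝ) * K * (n * (n * e')) ≤ X * (n * (n * e')) :=
    mul_le_mul_of_nonneg_right hMK (by positivity)
  have h6 := mul_le_mul_of_nonneg_left h3 (show (0 : ℝ) ≤ n from Nat.cast_nonneg n)
  linarith

omit [Fintype I] in
theorem TA_mono {d : LDat k n I} {ns : ℕ} {ε ε' : ℝ} (h : ε ≤ ε') (hT : TA d ns ε) :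
    TA d ns ε' := fun i i' h1 h2 => (hT i i' h1 h2).trans h

omit [Fintype I] in
theorem TB_mono {d : LDat k n I} {ns k'' : ℕ} {ε ε' : ℝ} (h : ε ≤ ε') (hT : TB d ns k'' ε) :
    TB d ns k'' ε' := fun a b h1 h2 => (hT a b h1 h2).trans (by
  refine mul_le_mul_of_nonneg_right h ?_
  have : (a : ℝ) ≤ b := by exact_mod_cast (show a ≤ b by omega)
  linarith)

omit [Fintype I] in
theorem TC_mono {d : LDat k n I} {k₀ : ℕ} {ε ε' : ℝ} (h : ε ≤ ε') (hT : TC d k₀ ε) :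
    TC d k₀ ε' := le_trans hT h

end

theorem J1_mono {d : RDat} {J : d.Om → Set ℕ} {h : ℕ} {u ε ε' : ℝ} {Bd : Set ℕ} (he : ε ≤ ε')
    (hJ : d.J1 J h u ε Bd) : d.J1 J h u ε' Bd := le_trans hJ he

/-- The logarithm is small. -/
theorem log_small {C δ : ℝ} (hC : 0 < C) (hδ : 0 < δ) : ∃ n₂ : ℕ, ∀ ns : ℕ, n₂ ≤ ns →
    C * (Real.log (6 * ns + 1) + 1) ≤ δ * ns := by
  obtain ⟨n₂, hn₂⟩ := exists_nat_ge ((7 * C / δ) ^ 2 + 1)
  refine ⟨n₂, fun ns hns => ?_⟩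
  have h1 : ((7 * C / δ) ^ 2 + 1 : ℝ) ≤ ns := hn₂.trans (by exact_mod_cast hns)
  have hns1 : (1 : ℝ) ≤ ns := by
    have : 0 ≤ (7 * C / δ) ^ 2 := by positivity
    linarith
  have h2 : 7 * C / δ ≤ Real.sqrt ns := by
    refine Real.le_sqrt_of_sq_le ?_
    linarith
  have h3 : Real.log (6 * ns + 1) ≤ 6 * Real.sqrt ns := by
    have e1 : (6 * ns + 1 : ℝ) ≤ (3 * Real.sqrt ns) ^ 2 := by
      rw [mul_pow, Real.sq_sqrt (by linarith)]
      linarith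
    have h4 : (1 : ℝ) ≤ Real.sqrt ns := Real.one_le_sqrt.2 hns1
    calc Real.log (6 * ns + 1) ≤ Real.log ((3 * Real.sqrt ns) ^ 2) :=
          Real.log_le_log (by positivity) e1
      _ = 2 * Real.log (3 * Real.sqrt ns) := by
          rw [Real.log_pow]
          norm_num
      _ ≤ 2 * (3 * Real.sqrt ns) :=
          mul_le_mul_of_nonneg_left (Real.log_le_self (by positivity)) (by norm_num)
      _ = 6 * Real.sqrt ns := by ring
  have h4 : (1 : ℝ) ≤ Real.sqrt ns := Real.one_le_sqrt.2 hns1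
  calc C * (Real.log (6 * ns + 1) + 1) ≤ C * (7 * Real.sqrt ns) :=
        mul_le_mul_of_nonneg_left (by linarith) hC.le
    _ = (7 * C / δ) * (δ * Real.sqrt ns) := by
        field_simp
    _ ≤ Real.sqrt ns * (δ * Real.sqrt ns) :=
        mul_le_mul_of_nonneg_right h2 (by positivity)
    _ = δ * (Real.sqrt ns * Real.sqrt ns) := by ring
    _ = δ * ns := by rw [Real.mul_self_sqrt (by linarith)]

theorem ar1 {n δ X : ℝ} (hn : 0 ≤ n) (hδ : 0 ≤ δ) (hX : 0 ≤ X) : δ / (n + 1) * X ≤ δ * X := by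
  refine mul_le_mul_of_nonneg_right ?_ hX
  rw [div_le_iff₀ (by linarith)]
  nlinarith

theorem ar5 {n δ X : ℝ} (hδ : 0 ≤ δ) (hX : 0 ≤ X) :
    X * (n * (n * (δ / (n ^ 2 + 1)))) ≤ δ * X := by
  have h0 : (0 : ℝ) < n ^ 2 + 1 := by positivity
  have a1 : n * (n * (δ / (n ^ 2 + 1))) ≤ δ := by
    have a2 : n * (n * (δ / (n ^ 2 + 1))) = n ^ 2 * δ / (n ^ 2 + 1) := by ring
    rw [a2, div_le_iff₀ h0]
    nlinarith
  calc X * (n * (n * (δ / (n ^ 2 + 1)))) ≤ X * δ := mul_le_mul_of_nonneg_left a1 hX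
    _ = δ * X := mul_comm _ _

theorem ar6 {n δ X : ℝ} (hn : 0 ≤ n) (hδ : 0 ≤ δ) (hX : 0 ≤ X) :
    n * (δ / (n + 1) * X) ≤ δ * X := by
  rw [← mul_assoc]
  refine mul_le_mul_of_nonneg_right ?_ hX
  rw [← mul_div_assoc, div_le_iff₀ (by linarith)]
  nlinarith

theorem ar3 {n δ X s : ℝ} (hn : 0 ≤ n) (hs : 0 ≤ s) (h : s ≤ δ / (11 * (n + 1)) * X) :
    n * (11 * s) ≤ δ * X := by
  have h0 : 0 < n + 1 := by linarith
  calc n * (11 * s) ≤ (n + 1) * (11 * s) :=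
        mul_le_mul_of_nonneg_right (by linarith) (by positivity)
    _ ≤ (n + 1) * (11 * (δ / (11 * (n + 1)) * X)) := by
        refine mul_le_mul_of_nonneg_left ?_ h0.le
        exact mul_le_mul_of_nonneg_left h (by norm_num)
    _ = δ * X := by field_simp

theorem ar2 {δ C X L ε : ℝ} (hC : 0 < C) (hX : 0 ≤ X) (hε : ε ≤ δ / C)
    (h : C * (L + 1) ≤ δ * X) : C * (ε * X + L + 1) ≤ δ * X + δ * X := by
  have a1 : C * (ε * X) ≤ δ * X := by
    calc C * (ε * X) ≤ C * ((δ / C) * X) :=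
          mul_le_mul_of_nonneg_left (mul_le_mul_of_nonneg_right hε hX) hC.le
      _ = δ * X := by field_simp
  calc C * (ε * X + L + 1) = C * (ε * X) + C * (L + 1) := by ring
    _ ≤ δ * X + δ * X := add_le_add a1 h

/-- **SPRA** from its rows. -/
theorem spra_thm (hGd : SPRGStmt) (hFu : SPRFStmt) : SPRAStmt := by
  classical
  intro k n u ε₄ hu hu1 hε₄
  rcases Nat.eq_zero_or_pos k with hk0 | hk
  · refine ⟨1, one_pos, fun k₀ => ⟨1, 1, 1, 1, le_rfl, one_pos, one_pos, one_pos, fun k'' A =>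
      ⟨0, 0, ?_⟩⟩⟩
    intro I _ b d J m ns h k' k₁ j₀ e c ε₀ hOK hS _ _ _ _ _ _ _ _ _ _ _ _ _ _
    refine ⟨fun _ _ => 0, fun _ _ => le_rfl, fun _ _ _ _ => rfl, ?_, ?_⟩
    · intro s _ v _ ξ hξ
      exfalso
      subst hk0
      have : ξ = 0 := Subsingleton.elim _ _
      rw [this, norm_zero] at hξ
      exact lt_irrefl _ hξ
    · rw [Finset.sum_eq_zero]
      · positivity
      · intro s _
        unfold Ex
        simp
  have hn1 : (0 : ℝ) < n + 1 := by positivity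
  set δ : ℝ := ε₄ / 16 with hδ
  have hδ0 : 0 < δ := by positivity
  obtain ⟨ε₇', hε₇', h1⟩ := hGd k n u (δ / (n + 1)) hu hu1 (by positivity)
  refine ⟨min ε₇' (δ / (n + 1) ^ 3), lt_min hε₇' (by positivity), fun k₀ => ?_⟩
  obtain ⟨B, hB, h2⟩ := h1 k₀
  set CB : ℝ := n * (1 + Real.log (2 * n * B + 4 * n * B * k + 2) / Real.log 2) + k + 3 with hCB
  obtain ⟨K₀, hK₀⟩ := exists_nat_ge (CB / δ)
  set K : ℕ := K₀ + 1 with hK
  have hK0 : (0 : ℝ) < K := by rw [hK]; positivity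
  have hKδ : CB / K ≤ δ := by
    rw [div_le_iff₀ hK0]
    have h3 : CB ≤ K₀ * δ := (div_le_iff₀ hδ0).1 hK₀
    have h4 : (K₀ : ℝ) * δ ≤ K * δ := by
      refine mul_le_mul_of_nonneg_right ?_ hδ0.le
      rw [hK]
      push_cast
      linarith
    linarith
  obtain ⟨ε₈', e₀, hε₈', he₀, h3⟩ := h2 K (δ / (n ^ 2 + 1)) (by positivity)
  obtain ⟨C, hC, h4⟩ := hFu k n
  refine ⟨K, δ / (11 * (n + 1)), min ε₈' (δ / C), e₀, by omega, by positivity,
    lt_min hε₈' (by positivity), he₀, fun k'' A => ?_⟩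
  obtain ⟨k₁₀, n₀, h5⟩ := h3 k'' A
  obtain ⟨n₁, hn₁⟩ := bv_le n k₀
  obtain ⟨n₂, hn₂⟩ := log_small hC hδ0
  obtain ⟨n₃, hn₃⟩ := exists_nat_ge ((n * (2 * K + 2) : ℝ) / δ)
  refine ⟨k₁₀, n₀ + n₁ + n₂ + n₃ + K, ?_⟩
  intro I _ b d J m ns h k' k₁ j₀ e c ε₀ hOK hS hns hκ hk' hk₁ hk₁n he hRow hJ hfq hTA hTB hTC
    hH1 hH3
  have hX : 64 * ns ≤ d.X := hS.nX
  have hXR : (64 : ℝ) * ns ≤ d.X := by exact_mod_cast hX
  have hX0 : (0 : ℝ) ≤ d.X := Nat.cast_nonneg _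
  have hns0 : (0 : ℝ) ≤ ns := Nat.cast_nonneg _
  have hQ : IsLaw d.Qr := Pool.L1.Qr_isLaw d hOK.law
  have hg := h5 I b d J m ns h k' k₁ e c hOK hS (by omega) hk' hk₁ hk₁n he hRow
    (J1_mono (min_le_left _ _) hJ) (hfq.trans (min_le_left _ _)) (TA_mono (min_le_left _ _) hTA)
    (TB_mono (min_le_left _ _) hTB) (TC_mono (min_le_left _ _) hTC)
  have hf := h4 I b d m A ns h j₀ (min ε₈' (δ / C)) ε₀ c hOK hS hH1 hH3
  have hsep := Pool.L1.sep_prob b d hOK hTC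
  have hε₆ : ((n : ℝ) + 1) ^ 2 * min ε₇' (δ / (n + 1) ^ 3) ≤ δ / (n + 1) := by
    calc ((n : ℝ) + 1) ^ 2 * min ε₇' (δ / (n + 1) ^ 3) ≤ ((n : ℝ) + 1) ^ 2 * (δ / (n + 1) ^ 3) :=
          mul_le_mul_of_nonneg_left (min_le_right _ _) (by positivity)
      _ = δ / (n + 1) := by field_simp
  refine ⟨fun s v => Mf b d m k₀ K s v, fun s v => Mf_nonneg b d m k₀ K s v,
    fun s v v' hG => Mf_cell b d m k₀ K s hG,
    fun s _ v hv ξ hξ => Mf_strip b d m k₀ (by omega) hQ s hv ξ hξ, ?_⟩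
  have hsum := Mf_sum b d m k₀ (K := K) (by omega) hk hQ (B := B) (e' := δ / (n ^ 2 + 1))
    (io := C * (min ε₈' (δ / C) * d.X + Real.log (6 * ns + 1) + 1)) (ε₆ := δ / (n + 1))
    (G := δ / (n + 1) * d.X) (ns := ns) (m' := 11 * ns) hB (by positivity) (by omega) (by omega)
    (hn₁ k I b d A ns h m c hOK hS (by omega)) hf (hsep.trans hε₆) hg
  refine le_trans hsum ?_
  -- the terms
  have hn0 : (0 : ℝ) ≤ n := Nat.cast_nonneg n
  have t1 : δ / (n + 1) * d.X ≤ δ * d.X := ar1 hn0 hδ0.le hX0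
  have t2 : C * (min ε₈' (δ / C) * d.X + Real.log (6 * ns + 1) + 1) ≤ δ * d.X + δ * d.X := by
    refine ar2 hC hX0 (min_le_right _ _) ?_
    refine (hn₂ ns (by omega)).trans (mul_le_mul_of_nonneg_left ?_ hδ0.le)
    linarith
  have t3 : (n : ℝ) * ((11 * ns : ℕ) + K + 2) + n * K ≤ δ * d.X + δ * d.X := by
    have a1 : (n : ℝ) * (11 * ns) ≤ δ * d.X := ar3 hn0 hns0 hκ
    have a2 : (n : ℝ) * (2 * K + 2) ≤ δ * d.X := by
      have a3 : (n : ℝ) * (2 * K + 2) ≤ n₃ * δ := (div_le_iff₀ hδ0).1 hn₃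
      have a4 : (n₃ : ℝ) ≤ d.X := by exact_mod_cast (show n₃ ≤ d.X by omega)
      refine a3.trans ?_
      rw [mul_comm]
      exact mul_le_mul_of_nonneg_left a4 hδ0.le
    push_cast
    calc (n : ℝ) * (11 * ns + K + 2) + n * K = n * (11 * ns) + n * (2 * K + 2) := by ring
      _ ≤ δ * d.X + δ * d.X := add_le_add a1 a2
  have t4 : (d.X / K : ℝ) * CB ≤ δ * d.X := by
    calc (d.X / K : ℝ) * CB = (CB / K) * d.X := by ring
      _ ≤ δ * d.X := mul_le_mul_of_nonneg_right hKδ hX0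
  have t5 : (d.X : ℝ) * (n * (n * (δ / (n ^ 2 + 1)))) ≤ δ * d.X := ar5 hδ0.le hX0
  have t6 : (n : ℝ) * (δ / (n + 1) * d.X) ≤ δ * d.X := ar6 hn0 hδ0.le hX0
  have hfin : ε₄ * (d.X : ℝ) = 16 * (δ * d.X) := by
    rw [hδ]
    ring
  have hδX : 0 ≤ δ * d.X := by positivity
  rw [hfin]
  have e1 : (n : ℝ) * (δ / (n + 1) * d.X + δ / (n + 1) * d.X + K) =
      n * (δ / (n + 1) * d.X) + n * (δ / (n + 1) * d.X) + n * K := by ring
  rw [e1]
  linarith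

end Pool.M5.S48
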