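import Pool.Agent.H48.M5.L1Fin

/-!
# L1: assembly of the rows
-/

set_option autoImplicit false

namespace Pool.M5.S48

open Finset Real Pool.M5
open Pool.Agent.H49.Ent Pool.Agent.H32.Dense Pool.STK Pool.KAF Pool.KVA

section

variable {k n : ℕ} {I : Type} [Fintype I]

theorem SPR_mono {b : Bas k I} {d : LDat k n I} {m : (Fin (n + 1) → d.Om) → ℤ} {ns a : ℕ}
    {ε ε' : ℝ} (h : ε ≤ ε') (hS : SPR b d m ns a ε) : SPR b d m ns a ε' := by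
  obtain ⟨M, h1, h2, h3, h4⟩ := hS
  exact ⟨M, h1, h2, h3, h4.trans (mul_le_mul_of_nonneg_right h (Nat.cast_nonneg _))⟩

theorem NLC_mono {b : Bas k I} {d : LDat k n I} {m : (Fin (n + 1) → d.Om) → ℤ} {ns a k₀ : ℕ}
    {ε ε' : ℝ} (h : ε ≤ ε') (hS : NLC b d m ns a k₀ ε) : NLC b d m ns a k₀ ε' :=
  fun i hi => (hS i hi).trans h

omit [Fintype I] in
theorem H1_mono {d : LDat k n I} {ι ι' ε₀ ε₀' : ℝ} {j₀ : ℕ} (h : ι ≤ ι') (h' : ε₀ ≤ ε₀')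
    (hH : d.H1 ι j₀ ε₀) : d.H1 ι' j₀ ε₀' := by
  have hX : (0 : ℝ) ≤ d.X := Nat.cast_nonneg _
  obtain ⟨h1, h2, h3⟩ := hH
  refine ⟨h1.trans (mul_le_mul_of_nonneg_right h hX), le_trans ?_ h2, by linarith only [h', h3]⟩
  have h4 : 0 ≤ Real.log 2 := Real.log_nonneg one_le_two
  refine mul_le_mul_of_nonneg_right ?_ h4
  exact mul_le_mul_of_nonneg_right (by linarith only [h]) hX

omit [Fintype I] in
theorem H3_mono {d : LDat k n I} {ι ι' : ℝ} (h : ι ≤ ι') (hH : d.H3 ι) : d.H3 ι' := by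
  have hX : (0 : ℝ) ≤ d.X := Nat.cast_nonneg _
  have h4 : 0 ≤ Real.log 2 := Real.log_nonneg one_le_two
  refine le_trans ?_ hH
  refine mul_le_mul_of_nonneg_right ?_ h4
  exact mul_le_mul_of_nonneg_right (by linarith only [h]) hX

theorem H2_mono {d : RDat} {ι ι' : ℝ} (h : ι ≤ ι') (hH : d.H2 ι) : d.H2 ι' :=
  le_trans hH (mul_le_mul_of_nonneg_right h (Nat.cast_nonneg _))

omit [Fintype I] in
/-- The label has a small entropy. -/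
theorem H_lab {d : LDat k n I} (hQ : IsLaw d.Qr) {m : (Fin (n + 1) → d.Om) → ℤ} {ns : ℕ}
    (h1 : ∀ v, -(4 * ns : ℤ) ≤ m v ∧ m v ≤ 2 * ns) : H d.Qr m ≤ Real.log (6 * ns + 1) := by
  have h := H_le_log_card hQ.nonneg hQ.sum_one m (F := Finset.Icc (-(4 * ns : ℤ)) (2 * ns))
    (fun v _ => Finset.mem_Icc.2 (h1 v))
  refine h.trans (le_of_eq ?_)
  congr 1
  rw [Int.card_Icc]
  have e1 : (2 * (ns : ℤ) + 1 - -(4 * ns)).toNat = 6 * ns + 1 := by omega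
  rw [e1]
  push_cast
  ring

end

/-- The sizes are compatible for large `X`. -/
theorem sizes {κ₂ δ ι' B₁ B₂ : ℝ} (hκ : 0 < κ₂) (hδ : 0 < δ) (hι' : 0 < ι') (hB₁ : 0 < B₁)
    (hB₂ : 0 < B₂) (n₀ : ℕ) : ∃ X₁ : ℕ, ∀ X : ℕ, X₁ ≤ X →
      n₀ ≤ ⌊κ₂ * X⌋₊ ∧ 1 ≤ ⌊κ₂ / 128 * X⌋₊ ∧ 64 * ⌊κ₂ / 128 * X⌋₊ ≤ ⌊κ₂ * X⌋₊ ∧
      Real.log (6 * ⌊κ₂ * X⌋₊ + 1) ≤ δ * ⌊κ₂ * X⌋₊ ∧ 1 ≤ ι' * X ∧
      B₁ ≤ (2 : ℝ) ^ (ι' / 2 * X) ∧ B₂ ≤ (2 : ℝ) ^ (κ₂ / 8 * X) := by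
  obtain ⟨n₂, hn₂⟩ := log_small (C := 1) one_pos hδ
  obtain ⟨X₁, hX₁⟩ := exists_nat_ge ((n₀ + n₂ + 256) / κ₂ + 1 / ι' + 2 * B₁ / ι' + 8 * B₂ / κ₂)
  refine ⟨X₁, fun X hX => ?_⟩
  have hXR : ((n₀ + n₂ + 256) / κ₂ + 1 / ι' + 2 * B₁ / ι' + 8 * B₂ / κ₂ : ℝ) ≤ X :=
    hX₁.trans (by exact_mod_cast hX)
  have q1 : 0 ≤ ((n₀ + n₂ + 256) / κ₂ : ℝ) := by positivity
  have q2 : 0 ≤ 1 / ι' := by positivity
  have q3 : 0 ≤ 2 * B₁ / ι' := by positivity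
  have q4 : 0 ≤ 8 * B₂ / κ₂ := by positivity
  have r1 : (n₀ + n₂ + 256 : ℝ) ≤ κ₂ * X := by
    have : ((n₀ + n₂ + 256) / κ₂ : ℝ) ≤ X := by linarith only [hXR, q2, q3, q4]
    rw [div_le_iff₀ hκ] at this
    linarith only [this]
  have r2 : 1 ≤ ι' * X := by
    have : 1 / ι' ≤ X := by linarith only [hXR, q1, q3, q4]
    rw [div_le_iff₀ hι'] at this
    linarith only [this]
  have r3 : B₁ ≤ ι' / 2 * X := by
    have : 2 * B₁ / ι' ≤ X := by linarith only [hXR, q1, q2, q4]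
    rw [div_le_iff₀ hι'] at this
    linarith only [this]
  have r4 : B₂ ≤ κ₂ / 8 * X := by
    have : 8 * B₂ / κ₂ ≤ X := by linarith only [hXR, q1, q2, q3]
    rw [div_le_iff₀ hκ] at this
    linarith only [this]
  have hpow : ∀ x : ℝ, 0 ≤ x → x ≤ (2 : ℝ) ^ x := by
    intro x hx
    have h1 : (1 : ℝ) + x * Real.log 2 ≤ Real.exp (x * Real.log 2) := by
      have := Real.add_one_le_exp (x * Real.log 2)
      linarith only [this]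
    have h2 : (2 : ℝ) ^ x = Real.exp (x * Real.log 2) := by
      rw [Real.rpow_def_of_pos two_pos, mul_comm]
    by_cases hx1 : x ≤ 1
    · exact hx1.trans (Real.one_le_rpow one_le_two hx)
    · rw [not_le] at hx1
      have h3 : (2 : ℝ) ^ x = (2 : ℝ) ^ ((x - 1) + 1) := by ring_nf
      rw [h3, Real.rpow_add two_pos, Real.rpow_one]
      have h4 : 1 + (x - 1) * Real.log 2 ≤ (2 : ℝ) ^ (x - 1) := by
        rw [Real.rpow_def_of_pos two_pos, mul_comm (Real.log 2)]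
        have := Real.add_one_le_exp ((x - 1) * Real.log 2)
        linarith only [this]
      have h5 : (1 : ℝ) / 2 ≤ Real.log 2 := by
        have := Real.log_two_gt_d9
        linarith only [this]
      nlinarith only [h4, hx1, h5]
  exact by
   have hfl : (κ₂ * X : ℝ) < ⌊κ₂ * X⌋₊ + 1 := Nat.lt_floor_add_one _
   have hX0 : (0 : ℝ) ≤ X := Nat.cast_nonneg _
   have hns : n₀ + n₂ ≤ ⌊κ₂ * X⌋₊ := by
     refine Nat.le_floor ?_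
     push_cast
     linarith only [r1]
   refine ⟨by omega, ?_, ?_, ?_, r2, r3.trans (hpow _ (by positivity)),
     r4.trans (hpow _ (by positivity))⟩
   · refine Nat.le_floor ?_
     push_cast
     linarith only [r1]
   · have h1 : (⌊κ₂ / 128 * X⌋₊ : ℝ) ≤ κ₂ / 128 * X := Nat.floor_le (by positivity)
     have h2 : ((64 * ⌊κ₂ / 128 * X⌋₊ : ℕ) : ℝ) < ⌊κ₂ * X⌋₊ + 1 := by
       push_cast
       linarith only [r1, hfl, h1]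
     have h3 : 64 * ⌊κ₂ / 128 * X⌋₊ < ⌊κ₂ * X⌋₊ + 1 := by exact_mod_cast h2
     omega
   · have h1 := hn₂ ⌊κ₂ * X⌋₊ (by omega)
     linarith only [h1]

/-- One set of data. -/
theorem l1_one {k n K A : ℕ} (b : Bas k (Mon k K)) (hD : ∀ i, b.D i = dmono (i : Fin k → ℕ))
    {c₅ u ε₄ ε₇ ε₈S ε₈ ε₈A ε₉ η ν e δ κ₂ κ₂S e₀S e₀A π₁ π₀ ι ιT ι' ε₀ ε₀S ε₀T C ε : ℝ}
    {k₀S k₂ a k'' k₅ k₁₀S k₁₀A k' k₁ n₀S n₀A n₀N n₀Q j₀ X₀T X₀R X₁ : ℕ}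
    (hRem : RemAt k K C (ε / 4) X₁) (hRw : RWAStmt)
    (hu : 0 < u) (hη : 0 < η) (hε₈ : 0 < ε₈) (hδ : 0 < δ) (hκ₂ : 0 < κ₂) (hι : 0 ≤ ι)
    (hι' : 0 < ι')
    (hTim : ∀ (d : LDat k n (Mon k K)) (b : Bas k (Mon k K)) (A j₀ : ℕ) (c ε₀ : ℝ),
      d.OK b A c → X₀T ≤ d.X → d.H1 ιT j₀ ε₀ → TA d ⌊κ₂ * d.X⌋₊ ε₈ ∧ TB d ⌊κ₂ * d.X⌋₊ k'' ε₈)
    (hTicS : ∀ (k n : ℕ) (I : Type) [Fintype I] (d : LDat k n I) (b : Bas k I) (A j₀ : ℕ)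
      (ι c : ℝ), d.OK b A c → k₀S ≤ j₀ → d.H1 ι j₀ ε₀S → TC d k₀S ε₇)
    (hTicT : ∀ (k n : ℕ) (I : Type) [Fintype I] (d : LDat k n I) (b : Bas k I) (A j₀ : ℕ)
      (ι c : ℝ), d.OK b A c → k₂ ≤ j₀ → d.H1 ι j₀ ε₀T → TC d k₂ ε₈)
    (hQnt : ∀ (I : Type) [Fintype I] (b : Bas k I) (d : LDat k n I) (A ns : ℕ)
      (c d₁ ε : ℝ), d.OK b A c → n₀Q ≤ ns → 0 < d₁ → 0 ≤ c →
      (2 : ℝ) ^ c * (b.C * (Fintype.card I + 1)) ≤ (2 : ℝ) ^ ((ns : ℝ) / 2) → TC d k₂ ε →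
      (∀ i < ns, Pr (d.Qp i) {w | |d.ta w| < (2 : ℝ) ^ (-(2 * ns : ℤ))} ≤ ε) →
      ∃ m : (Fin (n + 1) → d.Om) → ℤ, (∀ v, -(4 * ns : ℤ) ≤ m v ∧ m v ≤ 2 * ns) ∧ d.Lab m ∧
        Pr d.Qr {v | d₁ * ns < d.fq b (8 * ns) ns v ((2 : ℝ) ^ (1 - m v))} ≤
          2 * (n + 1) ^ 2 * ε / d₁ ∧
        ∀ v, 0 < d.Qr v → m v < 2 * ns → d₁ * ns < d.fq b (8 * ns) ns v ((2 : ℝ) ^ (-m v)))
    (hRow : ∀ (d : RDat) (Bd : Set ℕ), d.OK A → X₀R ≤ d.X → d.H2 δ →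
      d.H5 c₅ (κ₂ / 128) π₀ Bd → ∃ J : d.Om → Set ℕ, d.J1 J ⌊κ₂ / 128 * d.X⌋₊ u π₁ Bd ∧
        d.RowOK J k' k₁ (2 ^ (k + n)) e δ)
    (hSpr : ∀ (I : Type) [Fintype I] (b : Bas k I) (d : LDat k n I) (J : d.Om → Set ℕ)
      (m : (Fin (n + 1) → d.Om) → ℤ) (ns h k' k₁ j₀ : ℕ) (e c ε₀ : ℝ), d.OK b A c →
      Siz b d ns h m c → n₀S ≤ ns → (ns : ℝ) ≤ κ₂S * d.X → k + 2 * n + 6 ≤ k' → k₁₀S ≤ k₁ →
      k₁ ≤ ns → e ≤ e₀S → RowA b d J m ns k' k₁ e → (d.toR b).J1 J h u ε₈S ∅ →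
      Pr d.Qr {v | u / 32 * ns < d.fq b (8 * ns) ns v ((2 : ℝ) ^ (1 - m v))} ≤ ε₈S →
      TA d ns ε₈S → TB d ns k'' ε₈S → TC d k₀S ε₇ → d.H1 ε₈S j₀ ε₀ → d.H3 ε₈S →
      SPR b d m ns a ε₄)
    (hNlc : ∀ (I : Type) [Fintype I] (b : Bas k I) (d : LDat k n I) (J : d.Om → Set ℕ)
      (m : (Fin (n + 1) → d.Om) → ℤ) (A ns h k' k₁ a : ℕ) (e u π₁ ε₄ c : ℝ), d.OK b A c →
      Siz b d ns h m c → n₀N ≤ ns → a ≤ ns → 0 < u → k + 2 * n + 6 ≤ k' → a + 4 ≤ k₁ →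
      RowA b d J m ns k' k₁ e → (d.toR b).J1 J h u π₁ ∅ → SPR b d m ns a ε₄ →
      NLC b d m ns a k₂ (π₁ + 4 / u * (e + ε₄)))
    (hAls : ∀ (I : Type) [Fintype I]
      (b : Bas k I) (d : LDat k n I) (J : d.Om → Set ℕ) (m : (Fin (n + 1) → d.Om) → ℤ)
      (ns h k' k₁ : ℕ) (e c : ℝ), d.OK b A c → Siz b d ns h m c → n₀A ≤ ns →
      a + k + 2 * n + 10 ≤ k' → k₁₀A ≤ k₁ → k₁ ≤ ns → e ≤ e₀A → RowA b d J m ns k' k₁ e →
      (d.toR b).J1 J h u ε₈A ∅ → SPR b d m ns a ε₈A → NLC b d m ns a k₂ ε₈A → TA d ns ε₈A →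
      TB d ns k'' ε₈A → TC d k₂ ε₈A →
      ∃ Λ : (Fin (n + 1) → d.Om) → Fin n → Fin k → ℝ, AGR b d m ns k₅ Λ ε₉)
    (hLam : ∀ (k : ℕ) (I : Type) [Fintype I] (b : Bas k I) (d : LDat k n I) (A ns : ℕ)
      (m : (Fin (n + 1) → d.Om) → ℤ) (Λ : (Fin (n + 1) → d.Om) → Fin n → Fin k → ℝ) (c : ℝ),
      d.OK b A c → 1 ≤ ns → AGR b d m ns k₅ Λ ε₉ → TC d k₂ ε₉ →
      (∀ i < ns, Pr (d.Qp i) {w | d.ta w = 0} ≤ ε₉) →
      (∀ v, 0 < d.Qr v → m v < 2 * ns →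
        u / 32 * ns < d.fq b (8 * ns) ns v ((2 : ℝ) ^ (-m v))) →
      Pr d.Qr {v | m v < 2 * ns} ≤ η)
    -- relations of the constants
    (r1 : ε₈ ≤ ε₈S) (r2 : ε₈ ≤ ε₈A) (r3 : ε₈ ≤ ε₉) (r4 : (n + 1) ^ 2 * ε₈ ≤ η)
    (r5 : 2 * (n + 1) ^ 2 * ε₈ / (u / 32) ≤ ε₈S) (r6 : π₁ ≤ ε₈S) (r7 : π₁ ≤ ε₈A)
    (r8 : π₁ + 4 / u * (e + ε₄) ≤ ν) (r9 : ν ≤ ε₈A) (r10 : ν ≤ η) (r11 : ε₄ ≤ ε₈A)
    (r12 : κ₂ ≤ κ₂S) (r13 : κ₂ ≤ 1 / 64) (r14 : ι ≤ ιT) (r15 : (n + 3) * ι ≤ δ) (r16 : ι ≤ δ)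
    (r17 : ι ≤ ε₈S) (r18 : ι * Real.log 2 + (n + 3) * ι ≤ ι' * Real.log 2)
    (r19 : ι ≤ κ₂ / 8) (r20 : ι ≤ ι' / 2) (r21 : ε₀ ≤ ε₀S) (r22 : ε₀ ≤ ε₀T)
    (r23 : k₀S ≤ j₀) (r24 : k₂ ≤ j₀) (r25 : e ≤ e₀S) (r26 : e ≤ e₀A)
    (r27 : k' = a + k + 2 * n + 10) (r28 : k₁ = k₁₀S + k₁₀A + a + 4)
    (r29 : C * Real.sqrt ι' ≤ κ₂ / 4) (r30 : C * Real.sqrt ι' ≤ ε / 8) (r31 : η = ε / 16)
    (d : LDat k n (Mon k K)) (hd : d.OK b A (ι * d.X)) (hX₀T : X₀T ≤ d.X) (hX₀R : X₀R ≤ d.X)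
    (hX₁ : X₁ ≤ d.X)
    (hsz : (n₀S + n₀A + n₀N + n₀Q + k₁ + a + 2 * n + 8 ≤ ⌊κ₂ * d.X⌋₊ ∧
      1 ≤ ⌊κ₂ / 128 * d.X⌋₊ ∧ 64 * ⌊κ₂ / 128 * d.X⌋₊ ≤ ⌊κ₂ * d.X⌋₊ ∧
      Real.log (6 * ⌊κ₂ * d.X⌋₊ + 1) ≤ δ * ⌊κ₂ * d.X⌋₊ ∧ 1 ≤ ι' * d.X ∧
      2 + (n + 1) ^ 2 * CA n k₂ ≤ (2 : ℝ) ^ (ι' / 2 * d.X) ∧
      b.C * (Fintype.card (Mon k K) + 1) * 2 ≤ (2 : ℝ) ^ (κ₂ / 8 * d.X)))
    (hXb : 2 * (a + 2 * n + 8 : ℝ) ≤ κ₂ * d.X)
    (hH1 : d.H1 ι j₀ ε₀) (hH2 : (d.toR b).H2 ι) (hH3 : d.H3 ι)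
    (hH5 : (d.toR b).H5 c₅ (κ₂ / 128) π₀ ∅) :
    Pr (d.Q4 0) {u | ∃ i, (2 : ℝ) ^ (-(κ₂ * d.X)) < |d.rs u i|} ≤ ε := by
  classical
  set X := d.X with hX
  set ns := ⌊κ₂ * X⌋₊ with hns
  set h := ⌊κ₂ / 128 * X⌋₊ with hh
  set c := ι * X with hc
  obtain ⟨s1, s2, s3, s4, s5, s6, s7⟩ := hsz
  have hX0 : (0 : ℝ) ≤ X := Nat.cast_nonneg _
  have hc0 : 0 ≤ c := mul_nonneg hι hX0
  have hfl : (κ₂ * X : ℝ) < ns + 1 := Nat.lt_floor_add_one _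
  have hfl' : (ns : ℝ) ≤ κ₂ * X := Nat.floor_le (by positivity)
  have hQ : IsLaw d.Qr := Pool.L1.Qr_isLaw d hd.law
  have hn64 : 64 * ns ≤ X := by
    have h1 : ((64 * ns : ℕ) : ℝ) ≤ X := by
      push_cast
      have h2 : κ₂ * X ≤ 1 / 64 * X := mul_le_mul_of_nonneg_right r13 hX0
      linarith only [hfl', h2]
    exact_mod_cast h1
  have hcn : (2 : ℝ) ^ c * (b.C * (Fintype.card (Mon k K) + 1)) ≤ (2 : ℝ) ^ ((ns : ℝ) / 2) := by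
    have h1 : b.C * (Fintype.card (Mon k K) + 1) ≤ (2 : ℝ) ^ (κ₂ / 8 * X) / 2 := by
      rw [le_div_iff₀ two_pos]
      exact s7
    have h2 : (2 : ℝ) ^ c ≤ (2 : ℝ) ^ (κ₂ / 8 * X) :=
      Real.rpow_le_rpow_of_exponent_le one_le_two (mul_le_mul_of_nonneg_right r19 hX0)
    have hb0 : 0 ≤ b.C * (Fintype.card (Mon k K) + 1) :=
      mul_nonneg (zero_le_one.trans b.hC) (by positivity)
    calc (2 : ℝ) ^ c * (b.C * (Fintype.card (Mon k K) + 1))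
        ≤ (2 : ℝ) ^ (κ₂ / 8 * X) * ((2 : ℝ) ^ (κ₂ / 8 * X) / 2) :=
          mul_le_mul h2 h1 hb0 (by positivity)
      _ = (2 : ℝ) ^ (κ₂ / 8 * X + κ₂ / 8 * X - 1) := by
          rw [Real.rpow_sub two_pos, Real.rpow_add two_pos, Real.rpow_one]
          ring
      _ ≤ (2 : ℝ) ^ ((ns : ℝ) / 2) := by
          refine Real.rpow_le_rpow_of_exponent_le one_le_two ?_
          have : 0 ≤ κ₂ * X := by positivity
          linarith only [hXb, hfl]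
  exact by
   have hTT : TA d ns ε₈ ∧ TB d ns k'' ε₈ :=
     hTim d b A j₀ c ε₀ hd hX₀T (H1_mono r14 le_rfl hH1)
   obtain ⟨hTA, hTB⟩ := hTT
   have hTCS : TC d k₀S ε₇ := hTicS k n _ d b A j₀ ι c hd r23 (H1_mono le_rfl r21 hH1)
   have hTCT : TC d k₂ ε₈ := hTicT k n _ d b A j₀ ι c hd r24 (H1_mono le_rfl r22 hH1)
   have hTA2 : ∀ i < ns, Pr (d.Qp i) {w | |d.ta w| < (2 : ℝ) ^ (-(2 * ns : ℤ))} ≤ ε₈ := by
     intro i hi
     have h1 := hTA i (2 * ns) (by omega) (by omega)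
     push_cast at h1
     exact h1
   obtain ⟨m, hm, hLab, hm1, hm2⟩ := hQnt (Mon k K) b d A ns c (u / 32) ε₈ hd (by omega)
     (by positivity) hc0 hcn hTCT hTA2
   have hS : Siz b d ns h m c := ⟨s2, s3, hn64, fun v => (hm v).1, fun v => (hm v).2, hLab, hc0, hcn⟩
   obtain ⟨J, hJ1, hJ2⟩ := hRow (d.toR b) ∅ ⟨hd.law, hd.hN, hd.hZ⟩ hX₀R (H2_mono r16 hH2) hH5
   have hHm : H d.Qr m ≤ δ * X := by
     refine (H_lab hQ hm).trans (s4.trans (mul_le_mul_of_nonneg_left ?_ hδ.le))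
     have : (64 * ns : ℝ) ≤ X := by exact_mod_cast hn64
     have h0 : (0 : ℝ) ≤ ns := Nat.cast_nonneg _
     linarith only [hXb, hfl, this]
   have hRowA : RowA b d J m ns k' k₁ e :=
     hRw k n (Mon k K) b d J m A j₀ ns k' k₁ e δ ι ε₀ c hd hH1 r15 hLab hHm hJ2
   have hSPR : SPR b d m ns a ε₄ :=
     hSpr (Mon k K) b d J m ns h k' k₁ j₀ e c ε₀ hd hS (by omega)
       (hfl'.trans (mul_le_mul_of_nonneg_right r12 hX0)) (by omega) (by omega) (by omega) r25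
       hRowA (J1_mono r6 hJ1) (hm1.trans r5) (TA_mono r1 hTA) (TB_mono r1 hTB) hTCS
       (H1_mono r17 le_rfl hH1) (H3_mono r17 hH3)
   have hNLC := hNlc (Mon k K) b d J m A ns h k' k₁ a e u π₁ ε₄ c hd hS (by omega) (by omega) hu
     (by omega) (by omega) hRowA hJ1 hSPR
   obtain ⟨Λ, hAGR⟩ := hAls (Mon k K) b d J m ns h k' k₁ e c hd hS (by omega) (by omega)
     (by omega) (by omega) r26 hRowA (J1_mono r7 hJ1) (SPR_mono r11 hSPR)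
     (NLC_mono (r8.trans r9) hNLC) (TA_mono r2 hTA) (TB_mono r2 hTB) (TC_mono r2 hTCT)
   exact by
    have hta0 : ∀ i < ns, Pr (d.Qp i) {w | d.ta w = 0} ≤ ε₉ := by
      intro i hi
      refine le_trans (Pool.KAF.Pr_mono (Pool.L1.Qp_nonneg d hd.law.nonneg i) fun w _ hw => ?_)
        ((hTA2 i hi).trans r3)
      show |d.ta w| < _
      have hw' : d.ta w = 0 := hw
      rw [hw', abs_zero]
      positivity
    have hmm := hLam k (Mon k K) b d A ns m Λ c hd (by omega) hAGR (TC_mono r3 hTCT) hta0 hm2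
    -- the last step
    have hsep := (Pool.L1.sep_prob b d hd hTCT).trans r4
    have hta4 : Pr (d.Qp 0) {w | |d.ta w| < (2 : ℝ) ^ (-(4 * ns : ℤ))} ≤ η := by
      have h1 := hTA 0 (4 * ns) (by omega) (by omega)
      push_cast at h1
      refine h1.trans (le_trans (le_mul_of_one_le_left hε₈.le ?_) r4)
      exact one_le_pow₀ (by linarith only [(Nat.cast_nonneg n : (0 : ℝ) ≤ n)])
    have hco : (2 + (n + 1) ^ 2 * CA n k₂) * (2 : ℝ) ^ c ≤ (2 : ℝ) ^ (ι' * X) := by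
      have h1 : (2 : ℝ) ^ c ≤ (2 : ℝ) ^ (ι' / 2 * X) :=
        Real.rpow_le_rpow_of_exponent_le one_le_two (mul_le_mul_of_nonneg_right r20 hX0)
      calc (2 + (n + 1) ^ 2 * CA n k₂) * (2 : ℝ) ^ c
          ≤ (2 : ℝ) ^ (ι' / 2 * X) * (2 : ℝ) ^ (ι' / 2 * X) :=
            mul_le_mul s6 h1 (by positivity) (by positivity)
        _ = (2 : ℝ) ^ (ι' * X) := by
            rw [← Real.rpow_add two_pos]
            congr 1
            ring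
    set M : ℝ := 2 * ns - (a + 2 * n + 6) with hM
    have hnsR : ((n₀S + n₀A + n₀N + n₀Q + k₁ + a + 2 * n + 8 : ℕ) : ℝ) ≤ ns := by exact_mod_cast s1
    have hnsR' : (a + 2 * n + 8 : ℝ) ≤ ns := by
      refine le_trans ?_ hnsR
      push_cast
      have q1 : (0 : ℝ) ≤ n₀S := Nat.cast_nonneg _
      have q2 : (0 : ℝ) ≤ n₀A := Nat.cast_nonneg _
      have q3 : (0 : ℝ) ≤ n₀N := Nat.cast_nonneg _
      have q4 : (0 : ℝ) ≤ n₀Q := Nat.cast_nonneg _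
      have q5 : (0 : ℝ) ≤ k₁ := Nat.cast_nonneg _
      linarith only
    exact by
     have ha0 : (0 : ℝ) ≤ a := Nat.cast_nonneg a
     have hn0 : (0 : ℝ) ≤ n := Nat.cast_nonneg n
     have hM0 : 0 ≤ M := by rw [hM]; linarith only [hXb, hfl]
     have hM8 : M ≤ (8 * ns : ℕ) := by
       rw [hM]
       push_cast
       linarith only [hXb, hfl]
     have hMb : ((n : ℝ) + 1) ^ 2 * (2 : ℝ) ^ ((a : ℤ) + 4 - 2 * ns) ≤ (2 : ℝ) ^ (-M) := by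
       have h1 : ((n : ℝ) + 1) ^ 2 ≤ (2 : ℝ) ^ ((2 * n + 2 : ℝ)) := by
         have h2 : ((n : ℝ) + 1) ≤ (2 : ℝ) ^ ((n : ℝ) + 1) := by
           have h3 : (n + 1 : ℕ) < 2 ^ (n + 1) := Nat.lt_two_pow_self
           have h4 : ((n + 1 : ℕ) : ℝ) ≤ ((2 ^ (n + 1) : ℕ) : ℝ) := by exact_mod_cast h3.le
           have h5 : (2 : ℝ) ^ ((n : ℝ) + 1) = (2 : ℝ) ^ (n + 1) := by
             rw [← Real.rpow_natCast]
             push_cast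
             rfl
           rw [h5]
           push_cast at h4
           exact h4
         calc ((n : ℝ) + 1) ^ 2 ≤ ((2 : ℝ) ^ ((n : ℝ) + 1)) ^ 2 := pow_le_pow_left₀ (by positivity) h2 2
           _ = (2 : ℝ) ^ ((2 * n + 2 : ℝ)) := by
               rw [← Real.rpow_natCast, ← Real.rpow_mul two_pos.le]
               congr 1
               push_cast
               ring
       have h6 : (2 : ℝ) ^ ((a : ℤ) + 4 - 2 * ns) = (2 : ℝ) ^ ((a : ℝ) + 4 - 2 * ns) := by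
         rw [← Real.rpow_intCast]
         push_cast
         rfl
       rw [h6]
       calc ((n : ℝ) + 1) ^ 2 * (2 : ℝ) ^ ((a : ℝ) + 4 - 2 * ns)
           ≤ (2 : ℝ) ^ ((2 * n + 2 : ℝ)) * (2 : ℝ) ^ ((a : ℝ) + 4 - 2 * ns) :=
             mul_le_mul_of_nonneg_right h1 (by positivity)
         _ = (2 : ℝ) ^ (-M) := by
             rw [← Real.rpow_add two_pos, hM]
             congr 1
             ring
     exact by
      have hfin := fin_one hRem b hD d m hd hS hX₁ hH1 hH3 r18 hι'.le s5 hco hM0 hM8 hMb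
        ((hNLC 0 (by omega)).trans (r8.trans r10)) hsep hta4 hmm (by rw [r31]; linarith only)
      refine le_trans (Pool.KAF.Pr_mono (Pool.L1.Q4_nonneg d hd.law 0) fun w _ hw => ?_)
        (hfin.trans (by rw [r31]; linarith only [hη, r30, r31]))
      obtain ⟨i, hi⟩ := hw
      refine ⟨i, lt_of_le_of_lt ?_ hi⟩
      refine Real.rpow_le_rpow_of_exponent_le one_le_two ?_
      have h7 : C * Real.sqrt ι' * X ≤ κ₂ / 4 * X := mul_le_mul_of_nonneg_right r29 hX0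
      show C * Real.sqrt ι' * X - M ≤ -(κ₂ * X)
      rw [hM]
      linarith only [hXb, hfl, h7]

/-- **L1** from its rows. -/
theorem l1_of_rows (hR : RROWStmt) (hTim : TIMStmt) (hTic : TICStmt) (hQ : QNTStmt)
    (hRw : RWAStmt) (hSp : SPRAStmt) (hN : NLCStmt) (hA : ALSStmt) (hL : LAMStmt)
    (hRem : REMStmt) : L1Stmt := by
  classical
  intro k n K A b c ε hg hD hc hε
  obtain ⟨u, hu, hu1, hR1⟩ := hR A c hc
  obtain ⟨C, hC, hRem1⟩ := hRem k K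
  obtain ⟨X₁, hRem2⟩ := hRem1 (ε / 4) (by positivity)
  set η : ℝ := ε / 16 with hη
  have hη0 : 0 < η := by positivity
  obtain ⟨ε₉, hε₉, hL1⟩ := hL n u η hu hη0
  obtain ⟨ε₈A, hε₈A, hA1⟩ := hA k n u ε₉ hu hu1 hε₉
  set ν : ℝ := min ε₈A η with hν
  have hν0 : 0 < ν := lt_min hε₈A hη0
  set ε₄ : ℝ := min ε₈A (u * ν / 16) with hε₄
  have hε₄0 : 0 < ε₄ := lt_min hε₈A (by positivity)
  obtain ⟨ε₇, hε₇, hS1⟩ := hSp k n u ε₄ hu hu1 hε₄0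
  obtain ⟨k₀S, ε₀S, hε₀S, hTicS⟩ := hTic ε₇ hε₇
  obtain ⟨a, κ₂S, ε₈S, e₀S, ha1, hκ₂S, hε₈S, he₀S, hS2⟩ := hS1 k₀S
  have hn0 : (0 : ℝ) ≤ n := Nat.cast_nonneg n
  have hn1 : (0 : ℝ) < (n + 1) ^ 2 := by positivity
  set ε₈ : ℝ := min (min ε₈S ε₈A) (min ε₉ (min (η / (n + 1) ^ 2)
    (ε₈S * (u / 32) / (2 * (n + 1) ^ 2)))) with hε₈
  have hε₈0 : 0 < ε₈ :=
    lt_min (lt_min hε₈S hε₈A) (lt_min hε₉ (lt_min (by positivity) (by positivity)))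
  have m1 : ε₈ ≤ ε₈S := (min_le_left _ _).trans (min_le_left _ _)
  have m2 : ε₈ ≤ ε₈A := (min_le_left _ _).trans (min_le_right _ _)
  have m3 : ε₈ ≤ ε₉ := (min_le_right _ _).trans (min_le_left _ _)
  have m4 : ε₈ ≤ η / (n + 1) ^ 2 :=
    (min_le_right _ _).trans ((min_le_right _ _).trans (min_le_left _ _))
  have m5 : ε₈ ≤ ε₈S * (u / 32) / (2 * (n + 1) ^ 2) :=
    (min_le_right _ _).trans ((min_le_right _ _).trans (min_le_right _ _))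
  obtain ⟨k₂, ε₀T, hε₀T, hTicT⟩ := hTic ε₈ hε₈0
  exact by
   obtain ⟨k'', hTim1⟩ := hTim k n (Mon k K) ε₈ hε₈0
   obtain ⟨k₁₀S, n₀S, hS3⟩ := hS2 k'' A
   obtain ⟨k₅, hL2⟩ := hL1 k₂
   obtain ⟨k₁₀A, n₀A, e₀A, he₀A, hA2⟩ := hA1 k₂ a k'' k₅ A
   obtain ⟨n₀N, hN1⟩ := hN k n k₂
   obtain ⟨n₀Q, hQ1⟩ := hQ k n k₂
   set κ₂ : ℝ := min κ₂S (1 / 64) with hκ₂
   have hκ₂0 : 0 < κ₂ := lt_min hκ₂S (by norm_num)
   obtain ⟨ιT, X₀T, hιT, hTim2⟩ := hTim1 κ₂ hκ₂0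
   set k' : ℕ := a + k + 2 * n + 10 with hk'
   set k₁ : ℕ := k₁₀S + k₁₀A + a + 4 with hk₁
   set e : ℝ := min (min e₀S e₀A) (u * ν / 16) with he
   have he0 : 0 < e := lt_min (lt_min he₀S he₀A) (by positivity)
   obtain ⟨δ, hδ, hR2⟩ := hR1 k' k₁ (2 ^ (k + n)) e he0
   set π₁ : ℝ := min (min ε₈S ε₈A) (ν / 2) with hπ₁
   have hπ₁0 : 0 < π₁ := lt_min (lt_min hε₈S hε₈A) (by positivity)
   obtain ⟨π₀, X₀R, hπ₀, hR3⟩ := hR2 (κ₂ / 128) π₁ (by positivity)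
     (by have := min_le_right κ₂S (1 / 64 : ℝ); linarith only [hκ₂0, this]) hπ₁0
   set ρ : ℝ := min (ε / 8) (κ₂ / 4) with hρ
   have hρ0 : 0 < ρ := lt_min (by positivity) (by positivity)
   set ι' : ℝ := (ρ / C) ^ 2 with hι'
   have hι'0 : 0 < ι' := by positivity
   have hsq : C * Real.sqrt ι' = ρ := by
     rw [hι', Real.sqrt_sq (by positivity)]
     field_simp
   have hl2 : 0 < Real.log 2 := Real.log_pos one_lt_two
   set ι : ℝ := min (min (min ιT (δ / (n + 3))) (min ε₈S (ι' * Real.log 2 / (Real.log 2 + n + 3))))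
     (min (κ₂ / 8) (ι' / 2)) with hι
   have hι0 : 0 < ι := by
     refine lt_min (lt_min (lt_min hιT (by positivity)) (lt_min hε₈S (by positivity)))
       (lt_min (by positivity) (by positivity))
   exact by
    have i1 : ι ≤ ιT := (min_le_left _ _).trans ((min_le_left _ _).trans (min_le_left _ _))
    have i2 : ι ≤ δ / (n + 3) :=
      (min_le_left _ _).trans ((min_le_left _ _).trans (min_le_right _ _))
    have i3 : ι ≤ ε₈S := (min_le_left _ _).trans ((min_le_right _ _).trans (min_le_left _ _))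
    have i4 : ι ≤ ι' * Real.log 2 / (Real.log 2 + n + 3) :=
      (min_le_left _ _).trans ((min_le_right _ _).trans (min_le_right _ _))
    have i5 : ι ≤ κ₂ / 8 := (min_le_right _ _).trans (min_le_left _ _)
    have i6 : ι ≤ ι' / 2 := (min_le_right _ _).trans (min_le_right _ _)
    have hb0 : 0 < b.C * (Fintype.card (Mon k K) + 1) * 2 := by
      have := lt_of_lt_of_le one_pos b.hC
      positivity
    obtain ⟨X₂, hX₂⟩ := sizes (κ₂ := κ₂) (δ := δ) (ι' := ι')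
      (B₁ := 2 + (n + 1) ^ 2 * CA n k₂) (B₂ := b.C * (Fintype.card (Mon k K) + 1) * 2)
      hκ₂0 hδ hι'0 (by have := CA_pos n k₂; positivity) hb0
      (n₀S + n₀A + n₀N + n₀Q + k₁ + a + 2 * n + 8)
    obtain ⟨X₃, hX₃⟩ := exists_nat_ge (2 * (a + 2 * n + 8 : ℝ) / κ₂)
    refine ⟨κ₂, κ₂ / 128, π₀, ι, min ε₀S ε₀T, max k₀S k₂, X₀T + X₀R + X₁ + X₂ + X₃, hκ₂0,
      by positivity, by have := min_le_right κ₂S (1 / 64 : ℝ); linarith only [hι0, i5, this], hπ₀, hι0,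
      lt_min hε₀S hε₀T, ?_⟩
    intro d hd hX hH1 hH2 hH3 hH5
    have hXb : 2 * (a + 2 * n + 8 : ℝ) ≤ κ₂ * d.X := by
      have h1 : (X₃ : ℝ) ≤ d.X := by exact_mod_cast (show X₃ ≤ d.X by omega)
      have h2 : 2 * (a + 2 * n + 8 : ℝ) / κ₂ ≤ d.X := hX₃.trans h1
      rw [div_le_iff₀ hκ₂0] at h2
      linarith only [h2]
    have r4 : ((n : ℝ) + 1) ^ 2 * ε₈ ≤ η := by
      have h1 := mul_le_mul_of_nonneg_left m4 hn1.le
      have h2 : ((n : ℝ) + 1) ^ 2 * (η / (n + 1) ^ 2) = η := by field_simp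
      linarith only [h1, h2]
    have r5 : 2 * ((n : ℝ) + 1) ^ 2 * ε₈ / (u / 32) ≤ ε₈S := by
      rw [div_le_iff₀ (by positivity)]
      have h1 := mul_le_mul_of_nonneg_left m5 (show (0 : ℝ) ≤ 2 * (n + 1) ^ 2 by positivity)
      have h2 : 2 * ((n : ℝ) + 1) ^ 2 * (ε₈S * (u / 32) / (2 * (n + 1) ^ 2)) = ε₈S * (u / 32) := by
        field_simp
      linarith only [h1, h2]
    exact by
     have r8 : π₁ + 4 / u * (e + ε₄) ≤ ν := by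
       have h1 : e ≤ u * ν / 16 := min_le_right _ _
       have h2 : ε₄ ≤ u * ν / 16 := min_le_right _ _
       have h3 : π₁ ≤ ν / 2 := min_le_right _ _
       have h4 : 4 / u * (e + ε₄) ≤ 4 / u * (u * ν / 16 + u * ν / 16) :=
         mul_le_mul_of_nonneg_left (by linarith only [h1, h2]) (by positivity)
       have h5 : 4 / u * (u * ν / 16 + u * ν / 16) = ν / 2 := by
         field_simp
         ring
       linarith only [h3, h4, h5]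
     have r15 : ((n : ℝ) + 3) * ι ≤ δ := by
       rw [le_div_iff₀ (by positivity)] at i2
       linarith only [i2]
     have r16 : ι ≤ δ := by
       refine i2.trans ?_
       rw [div_le_iff₀ (by positivity)]
       exact le_mul_of_one_le_right hδ.le (by linarith only [hn0])
     have r18 : ι * Real.log 2 + (n + 3) * ι ≤ ι' * Real.log 2 := by
       rw [le_div_iff₀ (by positivity)] at i4
       linarith only [i4]
     have hsz := hX₂ d.X (by omega)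
     exact l1_one b hD (c₅ := c) (u := u) (ε₄ := ε₄) (ε₇ := ε₇) (ε₈S := ε₈S) (ε₈ := ε₈)
       (ε₈A := ε₈A) (ε₉ := ε₉) (η := η) (ν := ν) (e := e) (δ := δ) (κ₂ := κ₂) (κ₂S := κ₂S)
       (e₀S := e₀S) (e₀A := e₀A) (π₁ := π₁) (π₀ := π₀) (ι := ι) (ιT := ιT) (ι' := ι')
       (ε₀ := min ε₀S ε₀T) (ε₀S := ε₀S) (ε₀T := ε₀T) (C := C) (ε := ε) (k₀S := k₀S) (k₂ := k₂)
       (a := a) (k'' := k'') (k₅ := k₅) (k₁₀S := k₁₀S) (k₁₀A := k₁₀A) (k' := k') (k₁ := k₁)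
       (n₀S := n₀S) (n₀A := n₀A) (n₀N := n₀N) (n₀Q := n₀Q) (j₀ := max k₀S k₂) (X₀T := X₀T)
       (X₀R := X₀R) (X₁ := X₁) hRem2 hRw hu hη0 hε₈0 hδ hκ₂0 hι0.le hι'0 hTim2 hTicS hTicT hQ1
       hR3 hS3 hN1 hA2 hL2 m1 m2 m3 r4 r5
       ((min_le_left _ _).trans (min_le_left _ _)) ((min_le_left _ _).trans (min_le_right _ _)) r8
       (min_le_left _ _) (min_le_right _ _) (min_le_left _ _) (min_le_left _ _) (min_le_right _ _)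
       i1 r15 r16 i3 r18 i5 i6 (min_le_left _ _) (min_le_right _ _) (le_max_left _ _)
       (le_max_right _ _) ((min_le_left _ _).trans (min_le_left _ _))
       ((min_le_left _ _).trans (min_le_right _ _)) rfl rfl
       (by rw [hsq]; exact min_le_right _ _) (by rw [hsq]; exact min_le_left _ _) rfl
       d hd (by omega) (by omega) (by omega) hsz hXb hH1 hH2 hH3 hH5

end Pool.M5.S48
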