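import Pool.Agent.H48.M5.Stmts
import Pool.Agent.H87.SLO.Ker

/-!
# SPRA, split into three rows

`SPAN`: forms with separated bases span. `SPRG`: in most cells `n` spanning forms are almost
constant. `SPRF`: the tangential position is full given the reference.
-/

set_option autoImplicit false

namespace Pool.M5

open Finset Real
open Pool.Agent.H49.Ent Pool.Agent.H32.Dense Pool.STK Pool.KAF

/-- SPAN: forms with separated bases and small scales span. -/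
def SPANStmt : Prop :=
  ∀ n k₀ : ℕ, ∃ (B : ℝ) (i₀ : ℕ), 0 ≤ B ∧ ∀ (θ : Fin n → ℝ) (q : Fin n → Fin n → ℝ),
    (∀ j, 0 ≤ θ j ∧ θ j ≤ 1) → (∀ j j', j ≠ j' → (2 : ℝ) ^ (-(k₀ : ℤ)) ≤ |θ j - θ j'|) →
    (∀ j a, |q j a - (a.val + 1) * θ j ^ a.val| ≤ n ^ 2 / 2 ^ i₀) → Pool.SLO.Spn B q

section

variable {k n : ℕ} {I : Type} [Fintype I]

/-- The times and the label of a reference. -/
def LDat.lb (d : LDat k n I) (m : (Fin (n + 1) → d.Om) → ℤ) (v : Fin (n + 1) → d.Om) :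
    (Fin (n + 1) → d.Tau) × ℤ := (fun j => d.T (v j), m v)

/-- The position of the line of a reference. -/
noncomputable def LDat.yv (d : LDat k n I) (v : Fin (n + 1) → d.Om) : Fin k → ℝ :=
  d.yR (d.L (v 0))

open Classical in
/-- The unknown numbers relative to the reference, in units given by the label, for separated
references. -/
noncomputable def LDat.bv (b : Bas k I) (d : LDat k n I) (m : (Fin (n + 1) → d.Om) → ℤ) (k₀ : ℕ)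
    (v : Fin (n + 1) → d.Om) : Fin n → ℝ :=
  fun a => if d.sep k₀ v then (2 : ℝ) ^ m v * d.cs b v a else 0

/-- SPRG: in most cells there are `n` spanning forms which are almost constant. -/
def SPRGStmt : Prop :=
  ∀ (k n : ℕ) (u ε : ℝ), 0 < u → u ≤ 1 → 0 < ε → ∃ ε₇ : ℝ, 0 < ε₇ ∧ ∀ k₀ : ℕ, ∃ B : ℝ, 0 ≤ B ∧
    ∀ (K : ℕ) (e' : ℝ), 0 < e' → ∃ ε₈ e₀ : ℝ, 0 < ε₈ ∧ 0 < e₀ ∧ ∀ k'' A : ℕ, ∃ k₁₀ n₀ : ℕ,
      ∀ (I : Type) [Fintype I] (b : Bas k I) (d : LDat k n I) (J : d.Om → Set ℕ)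
      (m : (Fin (n + 1) → d.Om) → ℤ) (ns h k' k₁ : ℕ) (e c : ℝ), d.OK b A c →
      Siz b d ns h m c → n₀ ≤ ns → k + 2 * n + 6 ≤ k' → k₁₀ ≤ k₁ → k₁ ≤ ns → e ≤ e₀ →
      RowA b d J m ns k' k₁ e → (d.toR b).J1 J h u ε₈ ∅ →
      Pr d.Qr {v | u / 32 * ns < d.fq b (8 * ns) ns v ((2 : ℝ) ^ (1 - m v))} ≤ ε₈ →
      TA d ns ε₈ → TB d ns k'' ε₈ → TC d k₀ ε₇ →
      ∑ s ∈ Finset.Ico (8 * ns) (d.X - 8 * ns), Pr d.Qr {v | d.sep k₀ v ∧
        ¬ Pool.SLO.Gd B d.Qr (d.lb m) d.yv (d.bv b m k₀) K e' s v} ≤ ε * d.X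

/-- SPRF: the tangential position is full given the reference. -/
def SPRFStmt : Prop :=
  ∀ k n : ℕ, ∃ C : ℝ, 0 < C ∧ ∀ (I : Type) [Fintype I] (b : Bas k I) (d : LDat k n I)
    (m : (Fin (n + 1) → d.Om) → ℤ) (A ns h j₀ : ℕ) (ι ε₀ c : ℝ), d.OK b A c → Siz b d ns h m c →
    d.H1 ι j₀ ε₀ → d.H3 ι → ∀ r M, r ≤ M → M ≤ d.X →
      (k * ((M : ℝ) - r) - C * (ι * d.X + Real.log (6 * ns + 1) + 1)) * Real.log 2 ≤
        CH d.Qr (Pool.SLO.Yd d.yv M) (fun v => (d.lb m v, Pool.SLO.Yd d.yv r v))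

end

end Pool.M5
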